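import Mathlib

/-! Elimination for two coprime monic polynomials and their values at a number and at its complex conjugate. -/

set_option autoImplicit false

open Polynomial

namespace Pool.Agent.Helper12.WG

/-- an integral element of a domain of characteristic zero has a conjugate in `ℂ` -/
theorem exists_conj {S : Type} [CommRing S] [IsDomain S] [CharZero S] {z : S} (hz : IsIntegral ℤ z) :
    ∃ t : ℂ, ∀ P : ℤ[X], aeval z P = 0 ↔ aeval t P = 0 := by
  have hm : (minpoly ℤ z).Monic := minpoly.monic hz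
  have hdeg : 0 < (minpoly ℤ z).natDegree := minpoly.natDegree_pos hz
  obtain ⟨t, ht⟩ := IsAlgClosed.exists_root ((minpoly ℤ z).map (Int.castRingHom ℂ)) (by
    rw [hm.degree_map]
    intro h
    have := natDegree_eq_zero_iff_degree_le_zero.2 h.le
    omega)
  have ht' : aeval t (minpoly ℤ z) = 0 := by
    rw [IsRoot.def, eval_map] at ht
    rw [aeval_def]
    exact ht
  have hti : IsIntegral ℤ t := ⟨minpoly ℤ z, hm, ht'⟩
  have hdvd : minpoly ℤ t ∣ minpoly ℤ z := minpoly.isIntegrallyClosed_dvd hti ht'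
  have heq : minpoly ℤ t = minpoly ℤ z := by
    have h1 : Associated (minpoly ℤ t) (minpoly ℤ z) :=
      (minpoly.irreducible hti).associated_of_dvd (minpoly.irreducible hz) hdvd
    exact eq_of_monic_of_associated (minpoly.monic hti) hm h1
  refine ⟨t, fun P => ⟨fun h => ?_, fun h => ?_⟩⟩
  · obtain ⟨Q, rfl⟩ := minpoly.isIntegrallyClosed_dvd hz h
    rw [map_mul, ht', zero_mul]
  · obtain ⟨Q, rfl⟩ := minpoly.isIntegrallyClosed_dvd hti h
    rw [map_mul, heq, minpoly.aeval, zero_mul]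

theorem natDegree_det_le {n : ℕ} (M : Matrix (Fin n) (Fin n) ℤ[X]) (b : Fin n → ℕ)
    (h : ∀ i j, (M i j).natDegree ≤ b j) : M.det.natDegree ≤ ∑ j, b j := by
  rw [Matrix.det_apply]
  refine natDegree_sum_le_of_forall_le _ _ fun σ _ => ?_
  refine (natDegree_smul_le _ _).trans ?_
  refine (natDegree_prod_le _ _).trans ?_
  exact Finset.sum_le_sum fun j _ => h _ _

/-- `C (g Z) * g w - 1`, a polynomial in `w` with coefficients in `ℤ[Z]` -/
noncomputable def Tw (g : ℤ[X]) : ℤ[X][X] := C g * g.map C - 1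

theorem Tw_coeff (g : ℤ[X]) (i : ℕ) : ((Tw g).coeff i).natDegree ≤ g.natDegree := by
  unfold Tw
  rw [coeff_sub, coeff_C_mul, coeff_map, coeff_one]
  refine (natDegree_sub_le _ _).trans (max_le ?_ ?_)
  · refine (natDegree_mul_le).trans ?_
    rw [natDegree_C, add_zero]
  · split_ifs <;> simp

theorem Tw_natDegree (g : ℤ[X]) : (Tw g).natDegree ≤ g.natDegree := by
  unfold Tw
  refine (natDegree_sub_le _ _).trans (max_le ?_ (by simp))
  refine (natDegree_C_mul_le _ _).trans ?_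
  exact natDegree_map_le

/-- the polynomial `R` in `Z`: the resultant of `g(Z) g(w) - 1` and `h(Z) h(w) - 1` with respect to `w` -/
noncomputable def Elim (g h : ℤ[X]) : ℤ[X] := resultant (Tw g) (Tw h) g.natDegree h.natDegree

theorem Elim_natDegree (g h : ℤ[X]) : (Elim g h).natDegree ≤ 2 * (g.natDegree * h.natDegree) := by
  unfold Elim resultant
  refine (natDegree_det_le _ (fun j => Fin.addCases (fun _ => h.natDegree) (fun _ => g.natDegree) j) ?_).trans ?_
  · intro i j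
    unfold sylvester
    rw [Matrix.of_apply]
    refine Fin.addCases (fun j₁ => ?_) (fun j₁ => ?_) j
    · rw [Fin.addCases_left, Fin.addCases_left]
      split_ifs
      · exact Tw_coeff h _
      · simp
    · rw [Fin.addCases_right, Fin.addCases_right]
      split_ifs
      · exact Tw_coeff g _
      · simp
  · rw [Fin.sum_univ_add]
    simp only [Fin.addCases_left, Fin.addCases_right, Finset.sum_const, Finset.card_univ, Fintype.card_fin,
      smul_eq_mul]
    apply le_of_eq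
    ring

theorem eval_Tw (g : ℤ[X]) (t w : ℂ) :
    ((Tw g).map (aeval t : ℤ[X] →ₐ[ℤ] ℂ).toRingHom).eval w = aeval t g * aeval w g - 1 := by
  unfold Tw
  rw [Polynomial.map_sub, Polynomial.map_mul, map_C, Polynomial.map_one, Polynomial.map_map, eval_sub, eval_mul,
    eval_C, eval_one, eval_map]
  congr 2
  rw [aeval_def]
  exact congrArg (fun φ : ℤ →+* ℂ => eval₂ φ w g) (RingHom.ext_int _ _)

theorem Elim_root {g h : ℤ[X]} (hd : 0 < g.natDegree) {t w : ℂ}
    (h1 : aeval t g * aeval w g = 1) (h2 : aeval t h * aeval w h = 1) : aeval t (Elim g h) = 0 := by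
  have h3 : (aeval t : ℤ[X] →ₐ[ℤ] ℂ).toRingHom (Elim g h) =
      resultant ((Tw g).map (aeval t : ℤ[X] →ₐ[ℤ] ℂ).toRingHom) ((Tw h).map (aeval t : ℤ[X] →ₐ[ℤ] ℂ).toRingHom)
        g.natDegree h.natDegree := by
    rw [resultant_map_map]
    rfl
  have h4 : aeval t (Elim g h) = (aeval t : ℤ[X] →ₐ[ℤ] ℂ).toRingHom (Elim g h) := rfl
  obtain ⟨P, Q, -, -, h5⟩ := exists_mul_add_mul_eq_C_resultant (m := g.natDegree) (n := h.natDegree)
    ((Tw g).map (aeval t : ℤ[X] →ₐ[ℤ] ℂ).toRingHom) ((Tw h).map (aeval t : ℤ[X] →ₐ[ℤ] ℂ).toRingHom)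
    (natDegree_map_le.trans (Tw_natDegree g)) (natDegree_map_le.trans (Tw_natDegree h)) (Or.inl hd.ne')
  have h6 := congrArg (eval w) h5
  rw [eval_add, eval_mul, eval_mul, eval_Tw, eval_Tw, h1, h2, sub_self, zero_mul, zero_mul, add_zero, eval_C] at h6
  rw [h4, h3, ← h6]

theorem bezout {g h : ℤ[X]} (hg : g.Monic) (hh : h.Monic) (hd : 0 < g.natDegree)
    (hco : IsCoprime (g.map (Int.castRingHom ℚ)) (h.map (Int.castRingHom ℚ))) :
    ∃ (P Q : ℤ[X]) (c : ℤ), c ≠ 0 ∧ g * P + h * Q = C c := by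
  obtain ⟨P, Q, -, -, h5⟩ := exists_mul_add_mul_eq_C_resultant (m := g.natDegree) (n := h.natDegree)
    g h le_rfl le_rfl (Or.inl hd.ne')
  refine ⟨P, Q, _, ?_, h5⟩
  intro h0
  have h1 := (isUnit_resultant_iff_isCoprime (hg.map (Int.castRingHom ℚ))).2 hco
  rw [hg.natDegree_map, hh.natDegree_map, resultant_map_map, h0, map_zero] at h1
  exact not_isUnit_zero h1

theorem bounded_level {g : ℤ[X]} (hg : g.Monic) (hd : 0 < g.natDegree) :
    ∃ r : ℝ, ∀ w : ℂ, ‖aeval w g‖ ≤ 1 → ‖w‖ ≤ r := by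
  have hdeg : 0 < (g.map (Int.castRingHom ℂ)).degree := by
    rw [hg.degree_map]
    exact natDegree_pos_iff_degree_pos.1 hd
  have h1 := (g.map (Int.castRingHom ℂ)).tendsto_norm_atTop hdeg
    (l := Filter.comap (fun w : ℂ => ‖w‖) Filter.atTop) (z := fun w : ℂ => w) Filter.tendsto_comap
  have h2 := h1.eventually_gt_atTop 1
  rw [Filter.eventually_comap] at h2
  obtain ⟨r, hr⟩ := Filter.eventually_atTop.1 h2
  refine ⟨r, fun w hw => ?_⟩
  by_contra hn
  push Not at hn
  have h3 := hr ‖w‖ hn.le w rfl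
  have e : eval w (g.map (Int.castRingHom ℂ)) = aeval w g := by
    rw [eval_map, aeval_def]
    rfl
  rw [e] at h3
  linarith

theorem large_value {g : ℤ[X]} (hg : g.Monic) (hd : 0 < g.natDegree) (T : ℝ) :
    ∀ᶠ n : ℕ in Filter.atTop, T < ‖aeval (n : ℂ) g‖ := by
  have hdeg : 0 < (g.map (Int.castRingHom ℂ)).degree := by
    rw [hg.degree_map]
    exact natDegree_pos_iff_degree_pos.1 hd
  have h1 := (g.map (Int.castRingHom ℂ)).tendsto_norm_atTop hdeg
    (l := Filter.atTop) (z := fun n : ℕ => (n : ℂ)) (by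
      simp only [Complex.norm_natCast]
      exact tendsto_natCast_atTop_atTop)
  refine (h1.eventually_gt_atTop T).mono fun n hn => ?_
  have e : eval (n : ℂ) (g.map (Int.castRingHom ℂ)) = aeval (n : ℂ) g := by
    rw [eval_map, aeval_def]
    rfl
  rw [e] at hn
  exact hn

theorem Tw_map_natDegree {g : ℤ[X]} (hg : g.Monic) (hd : 0 < g.natDegree) {t : ℂ} (ht : aeval t g ≠ 0) :
    ((Tw g).map (aeval t : ℤ[X] →ₐ[ℤ] ℂ).toRingHom).natDegree = g.natDegree := by
  have e : (Tw g).map (aeval t : ℤ[X] →ₐ[ℤ] ℂ).toRingHom = C (aeval t g) * g.map (Int.castRingHom ℂ) - 1 := by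
    unfold Tw
    rw [Polynomial.map_sub, Polynomial.map_mul, map_C, Polynomial.map_one, Polynomial.map_map]
    congr 3
    exact RingHom.ext_int _ _
  rw [e, natDegree_sub_eq_left_of_natDegree_lt, natDegree_C_mul ht, hg.natDegree_map]
  rw [natDegree_one, natDegree_C_mul ht, hg.natDegree_map]
  exact hd

theorem Elim_ne_zero {g h : ℤ[X]} (hg : g.Monic) (hh : h.Monic) (hd : 0 < g.natDegree) (he : 0 < h.natDegree)
    (hco : IsCoprime (g.map (Int.castRingHom ℚ)) (h.map (Int.castRingHom ℚ))) : Elim g h ≠ 0 := by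
  intro h0
  obtain ⟨P, Q, c, hc, hPQ⟩ := bezout hg hh hd hco
  obtain ⟨r, hr⟩ := bounded_level hg hd
  obtain ⟨B, hB⟩ := (isCompact_closedBall (0 : ℂ) r).exists_bound_of_continuousOn
    (f := fun w : ℂ => aeval w P) (Polynomial.continuous_aeval P).continuousOn
  obtain ⟨B', hB'⟩ := (isCompact_closedBall (0 : ℂ) r).exists_bound_of_continuousOn
    (f := fun w : ℂ => aeval w Q) (Polynomial.continuous_aeval Q).continuousOn
  obtain ⟨x, hx1, hx2⟩ := ((large_value hg hd (max 1 (2 * (|B| + |B'|) + 1))).and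
    (large_value hh he (max 1 (2 * (|B| + |B'|) + 1)))).exists
  have hg1 : aeval (x : ℂ) g ≠ 0 := by
    intro h
    rw [h, norm_zero] at hx1
    have := le_max_left (1 : ℝ) (2 * (|B| + |B'|) + 1)
    linarith
  have hh1 : aeval (x : ℂ) h ≠ 0 := by
    intro h
    rw [h, norm_zero] at hx2
    have := le_max_left (1 : ℝ) (2 * (|B| + |B'|) + 1)
    linarith
  have h3 : resultant ((Tw g).map (aeval (x : ℂ) : ℤ[X] →ₐ[ℤ] ℂ).toRingHom)
      ((Tw h).map (aeval (x : ℂ) : ℤ[X] →ₐ[ℤ] ℂ).toRingHom) = 0 := by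
    rw [Tw_map_natDegree hg hd hg1, Tw_map_natDegree hh he hh1, resultant_map_map]
    change (aeval (x : ℂ) : ℤ[X] →ₐ[ℤ] ℂ).toRingHom (Elim g h) = 0
    rw [h0, map_zero]
  have h4 := (resultant_eq_zero_iff.1 h3).2
  rw [Polynomial.isCoprime_iff_aeval_ne_zero_of_isAlgClosed (k := ℂ) (K := ℂ)] at h4
  push Not at h4
  obtain ⟨w, hw1, hw2⟩ := h4
  rw [coe_aeval_eq_eval] at hw1 hw2
  rw [eval_Tw, sub_eq_zero] at hw1 hw2
  have n1 : ‖aeval (x : ℂ) g‖ * ‖aeval w g‖ = 1 := by rw [← norm_mul, hw1, norm_one]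
  have n2 : ‖aeval (x : ℂ) h‖ * ‖aeval w h‖ = 1 := by rw [← norm_mul, hw2, norm_one]
  obtain ⟨T, hT⟩ : ∃ T : ℝ, T = max 1 (2 * (|B| + |B'|) + 1) := ⟨_, rfl⟩
  rw [← hT] at hx1 hx2
  have hT1 : 1 ≤ T := by rw [hT]; exact le_max_left _ _
  have hT2 : 2 * (|B| + |B'|) + 1 ≤ T := by rw [hT]; exact le_max_right _ _
  have m1 : ‖aeval w g‖ * T ≤ 1 := by
    rw [← n1, mul_comm]
    exact mul_le_mul_of_nonneg_right hx1.le (norm_nonneg _)
  have m2 : ‖aeval w h‖ * T ≤ 1 := by
    rw [← n2, mul_comm]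
    exact mul_le_mul_of_nonneg_right hx2.le (norm_nonneg _)
  have m3 : ‖aeval w g‖ ≤ 1 := by
    have := mul_le_mul_of_nonneg_left hT1 (norm_nonneg (aeval w g))
    linarith
  have hwr := hr w m3
  have hwb : w ∈ Metric.closedBall (0 : ℂ) r := by
    rw [mem_closedBall_zero_iff]
    exact hwr
  have b1 : ‖aeval w P‖ ≤ |B| := (hB w hwb).trans (le_abs_self _)
  have b2 : ‖aeval w Q‖ ≤ |B'| := (hB' w hwb).trans (le_abs_self _)
  have h5 : (c : ℂ) = aeval w g * aeval w P + aeval w h * aeval w Q := by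
    have := congrArg (aeval w) hPQ
    rw [map_add, map_mul, map_mul, aeval_C] at this
    rw [this]
    rfl
  have h6 : (1 : ℝ) ≤ ‖(c : ℂ)‖ := by
    rw [Complex.norm_intCast]
    exact_mod_cast Int.one_le_abs hc
  have h7 : ‖(c : ℂ)‖ * T ≤ |B| + |B'| := by
    rw [h5]
    have e1 : ‖aeval w g * aeval w P + aeval w h * aeval w Q‖ ≤
        ‖aeval w g‖ * ‖aeval w P‖ + ‖aeval w h‖ * ‖aeval w Q‖ := by
      refine (norm_add_le _ _).trans ?_
      rw [norm_mul, norm_mul]
    have e2 : (‖aeval w g‖ * ‖aeval w P‖ + ‖aeval w h‖ * ‖aeval w Q‖) * T =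
        ‖aeval w g‖ * T * ‖aeval w P‖ + ‖aeval w h‖ * T * ‖aeval w Q‖ := by ring
    have e3 : ‖aeval w g‖ * T * ‖aeval w P‖ ≤ 1 * |B| :=
      mul_le_mul m1 b1 (norm_nonneg _) (by norm_num)
    have e4 : ‖aeval w h‖ * T * ‖aeval w Q‖ ≤ 1 * |B'| :=
      mul_le_mul m2 b2 (norm_nonneg _) (by norm_num)
    have e5 := mul_le_mul_of_nonneg_right e1 (by linarith : (0 : ℝ) ≤ T)
    rw [e2] at e5
    linarith
  have h8 : T ≤ ‖(c : ℂ)‖ * T := by
    have := mul_le_mul_of_nonneg_right h6 (by linarith : (0 : ℝ) ≤ T)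
    linarith
  have h9 := abs_nonneg B
  have h10 := abs_nonneg B'
  linarith

/-- **The conjugates of a number at which two coprime monic polynomials are roots of unity.** -/
theorem Elim_of_unity {S : Type} [CommRing S] [IsDomain S] [CharZero S] {g h : ℤ[X]} (hg : g.Monic)
    (hd : 0 < g.natDegree) {z : S} {n : ℕ} (hn : 0 < n) (h1 : aeval z g ^ n = 1) (h2 : aeval z h ^ n = 1) :
    IsIntegral ℤ z ∧ aeval z (Elim g h) = 0 := by
  have hz : IsIntegral ℤ z := by
    refine ⟨g ^ n - 1, ?_, ?_⟩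
    · refine (hg.pow n).sub_of_left ?_
      rw [degree_one, ← natDegree_pos_iff_degree_pos, hg.natDegree_pow]
      exact Nat.mul_pos hn hd
    · rw [← aeval_def, map_sub, map_pow, h1, map_one, sub_self]
  refine ⟨hz, ?_⟩
  obtain ⟨t, ht⟩ := exists_conj hz
  rw [ht]
  have k1 : aeval t g ^ n = 1 := by
    have := (ht (g ^ n - 1)).1 (by rw [map_sub, map_pow, h1, map_one, sub_self])
    rwa [map_sub, map_pow, map_one, sub_eq_zero] at this
  have k2 : aeval t h ^ n = 1 := by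
    have := (ht (h ^ n - 1)).1 (by rw [map_sub, map_pow, h2, map_one, sub_self])
    rwa [map_sub, map_pow, map_one, sub_eq_zero] at this
  have conj_eval : ∀ P : ℤ[X], aeval (starRingEnd ℂ t) P = starRingEnd ℂ (aeval t P) := by
    intro P
    have := Polynomial.hom_eval₂ P (algebraMap ℤ ℂ) (starRingEnd ℂ) t
    rw [aeval_def, aeval_def, this]
    exact congrArg (fun φ : ℤ →+* ℂ => eval₂ φ (starRingEnd ℂ t) P) (RingHom.ext_int _ _)
  have unit_conj : ∀ u : ℂ, u ^ n = 1 → u * starRingEnd ℂ u = 1 := by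
    intro u hu
    have := Complex.norm_eq_one_of_pow_eq_one hu hn.ne'
    rw [Complex.mul_conj, Complex.normSq_eq_norm_sq, this]
    simp
  exact Elim_root hd (w := starRingEnd ℂ t) (by rw [conj_eval]; exact unit_conj _ k1)
    (by rw [conj_eval]; exact unit_conj _ k2)

end Pool.Agent.Helper12.WG
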