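import Pool.Agent.Helper12.WG.A
import Pool.Agent.Results.MP_fd87b4_nt.LevelOneForTheLine

/-! Weakly global points of level one for the line minus a section and at least two further components. -/

set_option autoImplicit false

open Polynomial

namespace Pool.Agent.Helper12.WG

open Pool.Agent.N874.WG
open Pool.Agent.Results.MP_fd87b4_nt.LevelOneForTheLine (Level1 IntPts Settled Good Ru)

/-- the order of a root of unity in the field generated by `z` -/
theorem order_le {K : Type} [Field K] [CharZero K] {z : K} {R : ℤ[X]} (hR : R ≠ 0) (hz : aeval z R = 0)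
    (P : ℤ[X]) {n : ℕ} (hn : 0 < n) (h : aeval z P ^ n = 1) : (orderOf (aeval z P)).totient ≤ R.natDegree := by
  have hR' : R.map (algebraMap ℤ ℚ) ≠ 0 :=
    (Polynomial.map_ne_zero_iff (algebraMap ℤ ℚ).injective_int).2 hR
  have hz' : aeval z (R.map (algebraMap ℤ ℚ)) = 0 := by
    rw [aeval_map_algebraMap]
    exact hz
  have hzi : IsIntegral ℚ z := (isAlgebraic_iff_isIntegral.1 ⟨_, hR', hz'⟩)
  have hfin : FiniteDimensional ℚ (IntermediateField.adjoin ℚ {z}) := IntermediateField.adjoin.finiteDimensional hzi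
  have h1 : Module.finrank ℚ (IntermediateField.adjoin ℚ {z}) ≤ R.natDegree := by
    rw [IntermediateField.adjoin.finrank hzi]
    have h2 := natDegree_le_of_dvd (minpoly.dvd ℚ z hz') hR'
    exact h2.trans natDegree_map_le
  let z' : IntermediateField.adjoin ℚ {z} := IntermediateField.AdjoinSimple.gen ℚ z
  have hz'' : (algebraMap (IntermediateField.adjoin ℚ {z}) K) (aeval z' P) = aeval z P := by
    rw [← aeval_algebraMap_apply]
    rfl
  have hinj : Function.Injective (algebraMap (IntermediateField.adjoin ℚ {z}) K) :=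
    (algebraMap (IntermediateField.adjoin ℚ {z}) K).injective
  have h3 : orderOf (aeval z P) = orderOf (aeval z' P) := by
    rw [← hz'']
    exact orderOf_injective (algebraMap (IntermediateField.adjoin ℚ {z}) K).toMonoidHom hinj _
  have h4 : aeval z' P ^ n = 1 := by
    apply hinj
    rw [map_pow, hz'', h, map_one]
  have hpos : 0 < orderOf (aeval z' P) := orderOf_pos_iff.2 (isOfFinOrder_iff_pow_eq_one.2 ⟨n, hn, h4⟩)
  rw [h3, ← natDegree_cyclotomic (orderOf (aeval z' P)) ℚ,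
    cyclotomic_eq_minpoly_rat (IsPrimitiveRoot.orderOf (aeval z' P)) hpos]
  exact (minpoly.natDegree_le _).trans h1

variable {p : ℕ} [Fact p.Prime]

theorem toP_eval (k : ℤ[X]) (z : ℤ_[p]) : (toP p k).eval z = aeval z k := by
  rw [toP, eval_map, aeval_def]
  rfl

theorem root_of_dvd {f k : ℤ[X]} (hk : k.Monic) (hkf : k ∣ f) {z : ℤ_[p]} {n : ℕ} (h : Approx p f z n) :
    aeval z k ^ (2 * n) = 1 := by
  obtain ⟨m, rfl⟩ := hkf
  rw [← toP_eval]
  exact f_pow hk h.dvd

theorem exists_approx {f : ℤ[X]} {z : ℤ_[p]} (hz : z ∈ Level1 p f) : ∃ n, 0 < n ∧ Approx p f z n := hz.2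

/-- all values at `z` of monic divisors of `f` are roots of unity -/
theorem level_transfer {f : ℤ[X]} (hf : f.Monic) (hd : 0 < f.natDegree) {z : ℤ_[p]} (hz : z ∈ Level1 p f) :
    ∃ t : ℂ, (∀ P : ℤ[X], aeval z P = 0 ↔ aeval t P = 0) ∧
      ∀ k : ℤ[X], k.Monic → k ∣ f → Ru (aeval t k) := by
  obtain ⟨n, hn, h⟩ := exists_approx hz
  have hn2 : 0 < 2 * n := by omega
  have h1 := root_of_dvd hf dvd_rfl h
  have hzi : IsIntegral ℤ z := (Elim_of_unity (h := f) hf hd hn2 h1 h1).1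
  obtain ⟨t, ht⟩ := exists_conj hzi
  refine ⟨t, ht, fun k hk hkf => ⟨2 * n, hn2, ?_⟩⟩
  have h2 := root_of_dvd hk hkf h
  have := (ht (k ^ (2 * n) - 1)).1 (by rw [map_sub, map_pow, h2, map_one, sub_self])
  rwa [map_sub, map_pow, map_one, sub_eq_zero] at this

theorem settled_of_int {f : ℤ[X]} (hf : f.Monic) (h : ∀ z ∈ Level1 p f, ∃ x : ℤ, z = x) : Settled p f := by
  refine Set.Subset.antisymm ?_ ?_
  · intro z hz
    obtain ⟨x, rfl⟩ := h z hz
    obtain ⟨n, hn, hz'⟩ := exists_approx hz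
    have h1 := f_pow hf hz'
    rw [toP_eval_int] at h1
    exact ⟨x, Int.isUnit_iff.2 (int_pm (by omega : 0 < 2 * n) h1), rfl⟩
  · rintro z ⟨x, hx, rfl⟩
    exact Pool.Agent.Results.MP_fd87b4_nt.LevelOneForTheLine.mem_level f x hx

theorem settled_all {f : ℤ[X]} (hf : f.Monic) (hd : 0 < f.natDegree)
    (hC : ∀ t : ℂ, (∀ k : ℤ[X], k.Monic → k ∣ f → Ru (aeval t k)) → ∃ x : ℤ, t = x) : Settled p f := by
  refine settled_of_int hf fun z hz => ?_
  obtain ⟨t, ht, h1⟩ := level_transfer hf hd hz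
  obtain ⟨x, hx⟩ := hC t h1
  refine ⟨x, ?_⟩
  have h2 := (ht (X - C x)).2 (by rw [map_sub, aeval_X, aeval_C, hx]; simp)
  rw [map_sub, aeval_X, aeval_C, sub_eq_zero] at h2
  rw [h2]
  simp

theorem level_root {f g h : ℤ[X]} (hg : g.Monic) (hh : h.Monic) (hd : 0 < g.natDegree)
    (hgf : g ∣ f) (hhf : h ∣ f) {z : ℤ_[p]} (hz : z ∈ Level1 p f) : aeval z (Elim g h) = 0 := by
  obtain ⟨n, hn, h'⟩ := exists_approx hz
  exact (Elim_of_unity hg hd (by omega : 0 < 2 * n) (root_of_dvd hg hgf h') (root_of_dvd hh hhf h')).2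

theorem level_finite {f R : ℤ[X]} (hR : R ≠ 0) (h : ∀ z ∈ Level1 p f, aeval z R = 0) :
    (Level1 p f).Finite ∧ (Level1 p f).ncard ≤ R.natDegree := by
  classical
  have hR' : R.map (algebraMap ℤ ℤ_[p]) ≠ 0 :=
    (Polynomial.map_ne_zero_iff (algebraMap ℤ ℤ_[p]).injective_int).2 hR
  have hsub : Level1 p f ⊆ ((R.map (algebraMap ℤ ℤ_[p])).roots.toFinset : Set ℤ_[p]) := by
    intro z hz
    rw [Finset.mem_coe, Multiset.mem_toFinset, mem_roots hR', IsRoot.def, eval_map_algebraMap]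
    exact h z hz
  have hfin := (Finset.finite_toSet _).subset hsub
  refine ⟨hfin, (Set.ncard_le_ncard hsub (Finset.finite_toSet _)).trans ?_⟩
  rw [Set.ncard_coe_finset]
  exact (Multiset.toFinset_card_le _).trans ((card_roots' _).trans natDegree_map_le)

/-- the orders of the roots of unity -/
theorem level_order {f R : ℤ[X]} (hR : R ≠ 0) {z : ℤ_[p]} (hz : z ∈ Level1 p f) (hRz : aeval z R = 0)
    {k : ℤ[X]} (hk : k.Monic) (hkf : k ∣ f) :
    ∃ m : ℕ, 0 < m ∧ m.totient ≤ R.natDegree ∧ IsPrimitiveRoot (aeval z k) m := by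
  obtain ⟨n, hn, h'⟩ := exists_approx hz
  have h1 := root_of_dvd hk hkf h'
  let φ : ℤ_[p] →+* ℚ_[p] := PadicInt.Coe.ringHom
  have hφ : Function.Injective φ := fun x y hxy => PadicInt.ext hxy
  have e : ∀ P : ℤ[X], φ (aeval z P) = aeval (φ z) P := by
    intro P
    have := Polynomial.hom_eval₂ P (algebraMap ℤ ℤ_[p]) φ z
    rw [aeval_def, aeval_def, this]
    exact congrArg (fun ψ : ℤ →+* ℚ_[p] => eval₂ ψ (φ z) P) (RingHom.ext_int _ _)
  have h2 := order_le (K := ℚ_[p]) (z := φ z) hR (by rw [← e, hRz, map_zero]) k (by omega : 0 < 2 * n)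
    (by rw [← e, ← map_pow, h1, map_one])
  rw [← e] at h2
  have h3 : orderOf (φ (aeval z k)) = orderOf (aeval z k) := orderOf_injective φ.toMonoidHom hφ _
  rw [h3] at h2
  exact ⟨orderOf (aeval z k), orderOf_pos_iff.2 (isOfFinOrder_iff_pow_eq_one.2 ⟨2 * n, by omega, h1⟩), h2,
    IsPrimitiveRoot.orderOf _⟩

theorem level_good {f R : ℤ[X]} (hR : R ≠ 0) {D : ℕ} (hRD : R.natDegree ≤ 2 * D) (hp : Good D p) {z : ℤ_[p]}
    (hz : z ∈ Level1 p f) (hRz : aeval z R = 0) {k : ℤ[X]} (hk : k.Monic) (hkf : k ∣ f) :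
    aeval z k = 1 ∨ aeval z k = -1 := by
  obtain ⟨m, hm, h1, h2⟩ := level_order hR hz hRz hk hkf
  have h3 := h2.eq_orderOf
  rw [h3] at h1 hm
  exact pm_one (2 * D) hp.1 hp.2 hm (pow_orderOf_eq_one _) (h1.trans hRD)

theorem settled_good {f g h : ℤ[X]} (hf : f.Monic) (hg : g.Monic) (hh : h.Monic) (hd : 0 < g.natDegree)
    (he : 0 < h.natDegree) (hco : IsCoprime (g.map (Int.castRingHom ℚ)) (h.map (Int.castRingHom ℚ)))
    (hgf : g ∣ f) (hhf : h ∣ f) (hp : Good (g.natDegree * h.natDegree) p)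
    (hC : ∀ t : ℂ, (∀ k : ℤ[X], k.Monic → k ∣ f → aeval t k = 1 ∨ aeval t k = -1) → ∃ x : ℤ, t = x) :
    Settled p f := by
  refine settled_of_int hf fun z hz => ?_
  have hfd : 0 < f.natDegree := lt_of_lt_of_le hd (natDegree_le_of_dvd hgf hf.ne_zero)
  obtain ⟨t, ht, -⟩ := level_transfer hf hfd hz
  obtain ⟨x, hx⟩ := hC t (fun k hk hkf => by
    have h1 := level_good (Elim_ne_zero hg hh hd he hco) (Elim_natDegree g h) hp hz
      (level_root hg hh hd hgf hhf hz) hk hkf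
    rcases h1 with h1 | h1
    · left
      have := (ht (k - 1)).1 (by rw [map_sub, h1, map_one, sub_self])
      rwa [map_sub, map_one, sub_eq_zero] at this
    · right
      have := (ht (k + 1)).1 (by rw [map_add, h1, map_one, neg_add_cancel])
      rwa [map_add, map_one, add_eq_zero_iff_eq_neg] at this)
  refine ⟨x, ?_⟩
  have h2 := (ht (X - C x)).2 (by rw [map_sub, aeval_X, aeval_C, hx]; simp)
  rw [map_sub, aeval_X, aeval_C, sub_eq_zero] at h2
  rw [h2]
  simp

theorem ru_norm {u : ℂ} (h : Ru u) : ‖u‖ = 1 := by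
  obtain ⟨n, hn, h⟩ := h
  exact Complex.norm_eq_one_of_pow_eq_one h hn.ne'

/-- far away translates -/
theorem translates {g h : ℤ[X]} (hg : g.Monic) (hd : 0 < g.natDegree) : ∃ c₀ : ℤ, ∀ c : ℤ, c₀ ≤ |c| →
    ∀ t : ℂ, Ru (aeval t g) → ¬ Ru (aeval t (h + C c)) := by
  obtain ⟨r, hr⟩ := bounded_level hg hd
  obtain ⟨B, hB⟩ := (isCompact_closedBall (0 : ℂ) r).exists_bound_of_continuousOn
    (f := fun w : ℂ => aeval w h) (Polynomial.continuous_aeval h).continuousOn
  obtain ⟨c₀, hc₀⟩ := exists_int_gt (B + 1)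
  refine ⟨c₀, fun c hc t h1 h2 => ?_⟩
  have n1 := ru_norm h1
  have n2 := ru_norm h2
  have n3 := hB t (by rw [mem_closedBall_zero_iff]; exact hr t n1.le)
  have n4 : (c₀ : ℝ) ≤ |(c : ℝ)| := by exact_mod_cast hc
  have n5 : |(c : ℝ)| ≤ ‖aeval t (h + C c)‖ + ‖aeval t h‖ := by
    have e : (c : ℂ) = aeval t (h + C c) - aeval t h := by
      rw [map_add, aeval_C]
      simp
    rw [← Complex.norm_intCast, e]
    exact norm_sub_le _ _
  rw [n2] at n5
  linarith

theorem near_translates {g : ℤ[X]} {c : ℤ} (hc : 3 ≤ |c|) (t : ℂ) (h1 : Ru (aeval t g)) :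
    ¬ Ru (aeval t (g + C c)) := by
  intro h2
  have n1 := ru_norm h1
  have n2 := ru_norm h2
  have n4 : (3 : ℝ) ≤ |(c : ℝ)| := by exact_mod_cast hc
  have n5 : |(c : ℝ)| ≤ ‖aeval t (g + C c)‖ + ‖aeval t g‖ := by
    have e : (c : ℂ) = aeval t (g + C c) - aeval t g := by
      rw [map_add, aeval_C]
      simp
    rw [← Complex.norm_intCast, e]
    exact norm_sub_le _ _
  rw [n2, n1] at n5
  linarith

theorem level_empty {f g h : ℤ[X]} (hf : f.Monic) (hg : g.Monic) (hh : h.Monic) (hd : 0 < g.natDegree)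
    (hgf : g ∣ f) (hhf : h ∣ f) (hno : ∀ t : ℂ, Ru (aeval t g) → ¬ Ru (aeval t h)) :
    Level1 p f = ∅ ∧ IntPts f = ∅ := by
  have h0 : Level1 p f = ∅ := by
    rw [Set.eq_empty_iff_forall_notMem]
    intro z hz
    have hfd : 0 < f.natDegree := lt_of_lt_of_le hd (natDegree_le_of_dvd hgf hf.ne_zero)
    obtain ⟨t, -, h1⟩ := level_transfer hf hfd hz
    exact hno t (h1 g hg hgf) (h1 h hh hhf)
  refine ⟨h0, ?_⟩
  rw [Set.eq_empty_iff_forall_notMem]
  intro x hx
  have := Pool.Agent.Results.MP_fd87b4_nt.LevelOneForTheLine.mem_level (p := p) f x hx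
  rw [h0] at this
  exact this

end Pool.Agent.Helper12.WG
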