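import Mathlib

/-! Norm one elements of real quadratic orders are `p`-adically approximated by units: the `p`-adic closure of the group
generated by a unit. -/

set_option autoImplicit false

namespace Pool.Agent.Helper12.WG

variable {p : ℕ} [Fact p.Prime] {Δ : ℤ}

/-- `ℤ_p[√Δ]` -/
abbrev Qp (p : ℕ) [Fact p.Prime] (Δ : ℤ) : Type := QuadraticAlgebra ℤ_[p] ((Δ : ℤ) : ℤ_[p]) 0

/-- the norm -/
noncomputable def Nm (u : Qp p Δ) : ℤ_[p] := u.re ^ 2 - (Δ : ℤ_[p]) * u.im ^ 2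

/-- the conjugate -/
noncomputable def cj (u : Qp p Δ) : Qp p Δ := ⟨u.re, -u.im⟩

theorem Nm_mul (u v : Qp p Δ) : Nm (u * v) = Nm u * Nm v := by
  unfold Nm
  simp only [QuadraticAlgebra.re_mul, QuadraticAlgebra.im_mul]
  ring

theorem Nm_one : Nm (1 : Qp p Δ) = 1 := by
  unfold Nm
  simp [QuadraticAlgebra.re_one, QuadraticAlgebra.im_one]

theorem Nm_pow (u : Qp p Δ) (n : ℕ) : Nm (u ^ n) = Nm u ^ n := by
  induction n with
  | zero => rw [pow_zero, pow_zero, Nm_one]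
  | succ n ih => rw [pow_succ, pow_succ, Nm_mul, ih]

theorem mul_cj (u : Qp p Δ) (h : Nm u = 1) : u * cj u = 1 := by
  unfold Nm at h
  ext
  · simp only [QuadraticAlgebra.re_mul, cj, QuadraticAlgebra.re_one]
    linear_combination h
  · simp only [QuadraticAlgebra.im_mul, cj, QuadraticAlgebra.im_one]
    ring

theorem Nm_cj (u : Qp p Δ) : Nm (cj u) = Nm u := by
  unfold Nm cj
  ring

/-- `p ^ k` divides `x` -/
def D (k : ℕ) (x : Qp p Δ) : Prop := (p : ℤ_[p]) ^ k ∣ x.re ∧ (p : ℤ_[p]) ^ k ∣ x.im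

theorem D_mul {k : ℕ} {x : Qp p Δ} (h : D k x) (y : Qp p Δ) : D k (x * y) := by
  obtain ⟨⟨a, ha⟩, ⟨b, hb⟩⟩ := h
  constructor
  · rw [QuadraticAlgebra.re_mul, ha, hb]
    exact ⟨a * y.re + (Δ : ℤ_[p]) * b * y.im, by ring⟩
  · rw [QuadraticAlgebra.im_mul, ha, hb]
    exact ⟨a * y.im + b * y.re, by ring⟩

theorem D_add {k : ℕ} {x y : Qp p Δ} (h : D k x) (h' : D k y) : D k (x + y) :=
  ⟨dvd_add h.1 h'.1, dvd_add h.2 h'.2⟩

theorem D_neg {k : ℕ} {x : Qp p Δ} (h : D k x) : D k (-x) :=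
  ⟨(dvd_neg (a := (p : ℤ_[p]) ^ k)).2 h.1, (dvd_neg (a := (p : ℤ_[p]) ^ k)).2 h.2⟩

theorem D_sub_pow {k : ℕ} {x y : Qp p Δ} (h : D k (x - y)) (n : ℕ) : D k (x ^ n - y ^ n) := by
  obtain ⟨c, hc⟩ := sub_dvd_pow_sub_pow x y n
  rw [hc]
  exact D_mul h c

theorem D_mono {k l : ℕ} (hkl : k ≤ l) {x : Qp p Δ} (h : D l x) : D k x :=
  ⟨(pow_dvd_pow _ hkl).trans h.1, (pow_dvd_pow _ hkl).trans h.2⟩

theorem exists_of_D {k : ℕ} {x : Qp p Δ} (h : D k x) : ∃ y : Qp p Δ, x = ⟨(p : ℤ_[p]) ^ k * y.re, (p : ℤ_[p]) ^ k * y.im⟩ := by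
  obtain ⟨⟨a, ha⟩, ⟨b, hb⟩⟩ := h
  exact ⟨⟨a, b⟩, by ext <;> simp [ha, hb]⟩

theorem isUnit_two (hp2 : p ≠ 2) : IsUnit (2 : ℤ_[p]) := by
  have h1 : ((2 : ℕ) : ℤ_[p]) = 2 := by norm_num
  rw [← h1, PadicInt.isUnit_iff]
  by_contra h
  have h2 : ‖((2 : ℕ) : ℤ_[p])‖ < 1 := lt_of_le_of_ne (PadicInt.norm_le_one _) h
  have := (PadicInt.norm_natCast_lt_one_iff (p := p) (n := 2)).1 h2
  exact hp2 ((Nat.prime_dvd_prime_iff_eq Fact.out Nat.prime_two).1 this)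

theorem isUnit_add_dvd {u x : ℤ_[p]} (hu : IsUnit u) (hx : (p : ℤ_[p]) ∣ x) : IsUnit (u + x) := by
  by_contra h
  have h1 : (p : ℤ_[p]) ∣ u + x := by
    rw [← Ideal.mem_span_singleton, ← PadicInt.maximalIdeal_eq_span_p, IsLocalRing.mem_maximalIdeal]
    exact h
  have h2 : (p : ℤ_[p]) ∣ u := (dvd_add_left hx).1 h1
  exact PadicInt.prime_p.not_isUnit (isUnit_of_dvd_unit h2 hu)

theorem re_close (hp2 : p ≠ 2) {u : Qp p Δ} (h : Nm u = 1) {k : ℕ} (h1 : (p : ℤ_[p]) ∣ u.re - 1)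
    (h2 : (p : ℤ_[p]) ^ k ∣ u.im) : (p : ℤ_[p]) ^ (2 * k) ∣ u.re - 1 := by
  have h3 : IsUnit (u.re + 1) := by
    have := isUnit_add_dvd (isUnit_two hp2) h1
    have e : (2 : ℤ_[p]) + (u.re - 1) = u.re + 1 := by ring
    rwa [e] at this
  obtain ⟨t, ht⟩ := h2
  unfold Nm at h
  have h4 : (p : ℤ_[p]) ^ (2 * k) ∣ (u.re - 1) * (u.re + 1) := by
    refine ⟨(Δ : ℤ_[p]) * t ^ 2, ?_⟩
    rw [ht] at h
    have e : (p : ℤ_[p]) ^ (2 * k) = ((p : ℤ_[p]) ^ k) ^ 2 := by rw [← pow_mul, mul_comm]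
    rw [e]
    linear_combination h
  exact (h3.dvd_mul_right).1 h4

/-- norm one, `re ≡ 1 mod p ^ (2 k)`, `im ≡ 0 mod p ^ k` -/
structure G (k : ℕ) (u : Qp p Δ) : Prop where
  nm : Nm u = 1
  re : (p : ℤ_[p]) ^ (2 * k) ∣ u.re - 1
  im : (p : ℤ_[p]) ^ k ∣ u.im

theorem G.of_D (hp2 : p ≠ 2) {k : ℕ} (hk : 1 ≤ k) {u : Qp p Δ} (h : Nm u = 1) (h1 : D k (u - 1)) : G k u := by
  obtain ⟨h2, h3⟩ := h1
  rw [QuadraticAlgebra.re_sub, QuadraticAlgebra.re_one] at h2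
  rw [QuadraticAlgebra.im_sub, QuadraticAlgebra.im_one, sub_zero] at h3
  exact ⟨h, re_close hp2 h ((dvd_pow_self _ (by omega)).trans h2) h3, h3⟩

theorem G.one (k : ℕ) : G k (1 : Qp p Δ) :=
  ⟨Nm_one, by rw [QuadraticAlgebra.re_one, sub_self]; exact dvd_zero _,
    by rw [QuadraticAlgebra.im_one]; exact dvd_zero _⟩

theorem G.mul {k : ℕ} {u v : Qp p Δ} (hu : G k u) (hv : G k v) :
    G k (u * v) ∧ (p : ℤ_[p]) ^ (3 * k) ∣ (u * v).im - u.im - v.im := by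
  obtain ⟨nu, ⟨a, ha⟩, ⟨b, hb⟩⟩ := hu
  obtain ⟨nv, ⟨c, hc⟩, ⟨d, hd⟩⟩ := hv
  have e2 : (p : ℤ_[p]) ^ (2 * k) = ((p : ℤ_[p]) ^ k) ^ 2 := by rw [← pow_mul, mul_comm]
  have e3 : (p : ℤ_[p]) ^ (3 * k) = ((p : ℤ_[p]) ^ k) ^ 3 := by rw [← pow_mul, mul_comm]
  rw [e2] at ha hc
  have ha' : u.re = 1 + ((p : ℤ_[p]) ^ k) ^ 2 * a := by linear_combination ha
  have hc' : v.re = 1 + ((p : ℤ_[p]) ^ k) ^ 2 * c := by linear_combination hc
  refine ⟨⟨by rw [Nm_mul, nu, nv, one_mul], ?_, ?_⟩, ?_⟩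
  · rw [QuadraticAlgebra.re_mul, ha', hc', hb, hd, e2]
    exact ⟨a + c + ((p : ℤ_[p]) ^ k) ^ 2 * a * c + (Δ : ℤ_[p]) * b * d, by ring⟩
  · rw [QuadraticAlgebra.im_mul, ha', hc', hb, hd]
    exact ⟨(1 + ((p : ℤ_[p]) ^ k) ^ 2 * a) * d + b * (1 + ((p : ℤ_[p]) ^ k) ^ 2 * c), by ring⟩
  · rw [QuadraticAlgebra.im_mul, ha', hc', hb, hd, e3]
    exact ⟨a * d + b * c, by ring⟩

theorem G.pow {k : ℕ} {u : Qp p Δ} (hu : G k u) (i : ℕ) :
    G k (u ^ i) ∧ (p : ℤ_[p]) ^ (3 * k) ∣ (u ^ i).im - i * u.im := by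
  induction i with
  | zero =>
    refine ⟨by rw [pow_zero]; exact G.one k, ?_⟩
    rw [pow_zero, QuadraticAlgebra.im_one, Nat.cast_zero, zero_mul, sub_zero]
    exact dvd_zero _
  | succ i ih =>
    have h1 := ih.1.mul hu
    rw [pow_succ]
    refine ⟨h1.1, ?_⟩
    have h2 := dvd_add h1.2 ih.2
    have e : (u ^ i * u).im - (u ^ i).im - u.im + ((u ^ i).im - i * u.im) =
        (u ^ i * u).im - ((i + 1 : ℕ) : ℤ_[p]) * u.im := by
      push_cast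
      ring
    rwa [e] at h2

theorem G.step (hp2 : p ≠ 2) {k : ℕ} (hk : 1 ≤ k) {e : Qp p Δ} (he : G k e) {t : ℤ_[p]} (ht : IsUnit t)
    (h : e.im = (p : ℤ_[p]) ^ k * t) :
    G (k + 1) (e ^ p) ∧ ∃ t', IsUnit t' ∧ (e ^ p).im = (p : ℤ_[p]) ^ (k + 1) * t' := by
  obtain ⟨h1, ⟨s, hs⟩⟩ := he.pow p
  have h3 : (e ^ p).im = (p : ℤ_[p]) ^ (k + 1) * (t + (p : ℤ_[p]) ^ (2 * k - 1) * s) := by
    have e1 : (p : ℤ_[p]) ^ (3 * k) = (p : ℤ_[p]) ^ (k + 1) * (p : ℤ_[p]) ^ (2 * k - 1) := by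
      rw [← pow_add]
      congr 1
      omega
    rw [e1, h] at hs
    rw [pow_succ]
    rw [pow_succ] at hs
    linear_combination hs
  have h4 : IsUnit (t + (p : ℤ_[p]) ^ (2 * k - 1) * s) :=
    isUnit_add_dvd ht ((dvd_pow_self _ (by omega)).trans (Dvd.intro _ rfl))
  refine ⟨⟨h1.nm, re_close hp2 h1.nm ((dvd_pow_self _ (by omega)).trans h1.re) ?_, ?_⟩, _, h4, h3⟩
  · exact ⟨_, h3⟩
  · exact ⟨_, h3⟩

theorem G.approx {k : ℕ} (hk : 1 ≤ k) {e v : Qp p Δ} (he : G k e) (hv : G k v) {t : ℤ_[p]} (ht : IsUnit t)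
    (h : e.im = (p : ℤ_[p]) ^ k * t) : ∃ i : ℕ, D (k + 1) (v - e ^ i) := by
  obtain ⟨t', ht'⟩ := ht.exists_left_inv
  obtain ⟨tv, htv⟩ := hv.im
  obtain ⟨i, hi⟩ : ∃ i : ℕ, (p : ℤ_[p]) ∣ tv * t' - i := by
    refine ⟨(PadicInt.toZMod (tv * t')).val, ?_⟩
    rw [← Ideal.mem_span_singleton, ← PadicInt.maximalIdeal_eq_span_p, ← PadicInt.ker_toZMod, RingHom.mem_ker,
      map_sub, map_natCast, ZMod.natCast_zmod_val, sub_self]
  refine ⟨i, ?_⟩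
  obtain ⟨h1, ⟨s, hs⟩⟩ := he.pow i
  constructor
  · rw [QuadraticAlgebra.re_sub]
    have h2 : (p : ℤ_[p]) ^ (2 * k) ∣ v.re - (e ^ i).re := by
      have := dvd_sub hv.re h1.re
      have e1 : v.re - 1 - ((e ^ i).re - 1) = v.re - (e ^ i).re := by ring
      rwa [e1] at this
    exact (pow_dvd_pow _ (by omega)).trans h2
  · rw [QuadraticAlgebra.im_sub]
    obtain ⟨r, hr⟩ := hi
    have e1 : (p : ℤ_[p]) ^ (3 * k) = (p : ℤ_[p]) ^ (k + 1) * (p : ℤ_[p]) ^ (2 * k - 1) := by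
      rw [← pow_add]
      congr 1
      omega
    rw [e1] at hs
    refine ⟨r * t - (p : ℤ_[p]) ^ (2 * k - 1) * s, ?_⟩
    rw [pow_succ] at hs ⊢
    rw [h] at hs
    have h5 : tv = i * t + p * r * t := by linear_combination t * hr - tv * ht'
    rw [htv, h5]
    linear_combination -hs

/-- **Closure.** -/
theorem G.closure (hp2 : p ≠ 2) {a : ℕ} (ha : 1 ≤ a) {e : Qp p Δ} (he : G a e) {t : ℤ_[p]} (ht : IsUnit t)
    (h : e.im = (p : ℤ_[p]) ^ a * t) (k : ℕ) :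
    (∃ j₀ : ℕ, G (a + k) (e ^ j₀) ∧ ∃ t', IsUnit t' ∧ (e ^ j₀).im = (p : ℤ_[p]) ^ (a + k) * t') ∧
    ∀ w : Qp p Δ, G a w → ∃ j : ℕ, D (a + k) (w - e ^ j) := by
  induction k with
  | zero =>
    refine ⟨⟨1, by rw [pow_one]; exact he, t, ht, by rw [pow_one]; exact h⟩, fun w hw => ⟨0, ?_⟩⟩
    rw [pow_zero]
    constructor
    · rw [QuadraticAlgebra.re_sub, QuadraticAlgebra.re_one]
      exact (pow_dvd_pow _ (by omega)).trans hw.re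
    · rw [QuadraticAlgebra.im_sub, QuadraticAlgebra.im_one, sub_zero]
      exact hw.im
  | succ k ih =>
    obtain ⟨⟨j₀, hj, t', ht', hj'⟩, hw⟩ := ih
    refine ⟨?_, fun w hwa => ?_⟩
    · obtain ⟨h1, t'', ht'', h2⟩ := hj.step hp2 (by omega) ht' hj'
      rw [← pow_mul] at h1 h2
      exact ⟨j₀ * p, h1, t'', ht'', h2⟩
    · obtain ⟨j, hjw⟩ := hw w hwa
      have he1 : Nm (e ^ j) = 1 := by rw [Nm_pow, he.nm, one_pow]
      have hv : Nm (w * cj (e ^ j)) = 1 := by rw [Nm_mul, Nm_cj, hwa.nm, he1, one_mul]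
      have hc := mul_cj (e ^ j) he1
      have hv1 : w * cj (e ^ j) - 1 = (w - e ^ j) * cj (e ^ j) := by rw [sub_mul, hc]
      have hG : G (a + k) (w * cj (e ^ j)) := G.of_D hp2 (by omega) hv (by rw [hv1]; exact D_mul hjw _)
      obtain ⟨i, hi⟩ := G.approx (by omega) hj hG ht' hj'
      refine ⟨j₀ * i + j, ?_⟩
      have h3 : w - e ^ (j₀ * i + j) = (w * cj (e ^ j) - (e ^ j₀) ^ i) * e ^ j := by
        rw [sub_mul, mul_assoc, mul_comm (cj _) (e ^ j), hc, mul_one, ← pow_mul, ← pow_add]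
      rw [h3]
      exact D_mul hi _

/-- a power of a unit is close to one -/
theorem exists_pow (k : ℕ) {u : Qp p Δ} {u' : Qp p Δ} (hu : u * u' = 1) : ∃ n : ℕ, 0 < n ∧ D k (u ^ n - 1) := by
  have : NeZero (p ^ k) := ⟨pow_ne_zero _ (Fact.out : p.Prime).ne_zero⟩
  obtain ⟨i, j, hij, h⟩ := Finite.exists_ne_map_eq_of_infinite (fun n : ℕ =>
    ((PadicInt.toZModPow k (u ^ n).re, PadicInt.toZModPow k (u ^ n).im) : ZMod (p ^ k) × ZMod (p ^ k)))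
  wlog hlt : i < j generalizing i j
  · exact this j i hij.symm h.symm (by omega)
  have hdvd : ∀ x y : ℤ_[p], PadicInt.toZModPow k x = PadicInt.toZModPow k y → (p : ℤ_[p]) ^ k ∣ y - x := by
    intro x y hxy
    rw [← Ideal.mem_span_singleton, ← PadicInt.ker_toZModPow, RingHom.mem_ker, map_sub, hxy, sub_self]
  have h1 := hdvd _ _ (Prod.ext_iff.1 h).1
  have h2 := hdvd _ _ (Prod.ext_iff.1 h).2
  refine ⟨j - i, by omega, ?_⟩
  have h3 : D k (u ^ j - u ^ i) := ⟨by rw [QuadraticAlgebra.re_sub]; exact h1, by rw [QuadraticAlgebra.im_sub]; exact h2⟩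
  have h4 : u ^ (j - i) - 1 = (u ^ j - u ^ i) * u' ^ i := by
    have e1 : u ^ j = u ^ (j - i) * u ^ i := by rw [← pow_add]; congr 1; omega
    have e2 : u ^ i * u' ^ i = 1 := by rw [← mul_pow, hu, one_pow]
    rw [e1, sub_mul, mul_assoc, e2, mul_one]
  rw [h4]
  exact D_mul h3 _

/-- **The `p`-adic closure of the powers of a unit.** `E = x + y √Δ` with `x² - Δ y² = 1` and such that no power of `E` is
rational; `u` an element whose norm is a root of unity. Then a power of `u` is in the closure of the powers of `E ^ m`,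
for a multiple `m` of `m₀`. -/
theorem unit_closure (hp2 : p ≠ 2) {E : Qp p Δ} (hE : Nm E = 1) (hE' : ∀ n : ℕ, 0 < n → (E ^ n).im ≠ 0)
    {m₀ : ℕ} (hm₀ : 0 < m₀) {u : Qp p Δ} {N : ℕ} (hN : 0 < N) (hu : Nm u ^ N = 1) :
    ∃ n : ℕ, 0 < n ∧ ∀ k : ℕ, ∃ j : ℕ, D k (u ^ n - (E ^ m₀) ^ j) := by
  obtain ⟨m, hm, h1⟩ := exists_pow 1 (u := E ^ m₀) (u' := cj (E ^ m₀))
    (mul_cj _ (by rw [Nm_pow, hE, one_pow]))
  have hnm : Nm ((E ^ m₀) ^ m) = 1 := by rw [Nm_pow, Nm_pow, hE, one_pow, one_pow]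
  have hG1 : G 1 ((E ^ m₀) ^ m) := G.of_D hp2 le_rfl hnm h1
  have him : ((E ^ m₀) ^ m).im ≠ 0 := by
    rw [← pow_mul]
    exact hE' _ (Nat.mul_pos hm₀ hm)
  have h2 := PadicInt.unitCoeff_spec him
  have ha : 1 ≤ PadicInt.valuation ((E ^ m₀) ^ m).im := by
    by_contra hcon
    have h0 : PadicInt.valuation ((E ^ m₀) ^ m).im = 0 := by omega
    rw [h0, pow_zero, mul_one] at h2
    have h3 := hG1.im
    rw [pow_one, h2] at h3
    exact PadicInt.prime_p.not_isUnit (isUnit_of_dvd_unit h3 (PadicInt.unitCoeff him).isUnit)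
  obtain ⟨a, hadef⟩ : ∃ a : ℕ, a = PadicInt.valuation ((E ^ m₀) ^ m).im := ⟨_, rfl⟩
  rw [← hadef] at ha h2
  have h2' : ((E ^ m₀) ^ m).im = (p : ℤ_[p]) ^ a * ((PadicInt.unitCoeff him : ℤ_[p]ˣ) : ℤ_[p]) := by
    rw [mul_comm]
    exact h2
  have hGa : G a ((E ^ m₀) ^ m) := by
    refine ⟨hnm, re_close hp2 hnm ?_ ⟨_, h2'⟩, ⟨_, h2'⟩⟩
    have := hG1.re
    exact (dvd_pow_self _ (by norm_num)).trans this
  -- a power of `u`
  have hu1 : u * (cj u * ⟨Nm u ^ (N - 1), 0⟩) = 1 := by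
    have e1 : Nm u * Nm u ^ (N - 1) = 1 := by
      rw [← pow_succ', Nat.sub_add_cancel hN, hu]
    have e2 : (u.re ^ 2 - (Δ : ℤ_[p]) * u.im ^ 2) * Nm u ^ (N - 1) = 1 := e1
    ext
    · simp only [QuadraticAlgebra.re_mul, QuadraticAlgebra.im_mul, cj, QuadraticAlgebra.re_one]
      linear_combination e2
    · simp only [QuadraticAlgebra.re_mul, QuadraticAlgebra.im_mul, cj, QuadraticAlgebra.im_one]
      ring
  obtain ⟨n, hn, h5⟩ := exists_pow a hu1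
  have h6 : D a (u ^ (n * N) - 1) := by
    have := D_sub_pow h5 N
    rwa [one_pow, ← pow_mul] at this
  have h7 : Nm (u ^ (n * N)) = 1 := by rw [Nm_pow, mul_comm, pow_mul, hu, one_pow]
  have hGu : G a (u ^ (n * N)) := G.of_D hp2 ha h7 h6
  refine ⟨n * N, Nat.mul_pos hn hN, fun k => ?_⟩
  obtain ⟨j, hj⟩ := (G.closure hp2 ha hGa (PadicInt.unitCoeff him).isUnit h2' k).2 _ hGu
  refine ⟨m * j, D_mono (by omega : k ≤ a + k) ?_⟩
  rw [pow_mul (E ^ m₀) m j]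
  exact hj

end Pool.Agent.Helper12.WG
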