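import Pool.Agent.Helper12.WG.B
import Pool.Agent.Helper12.WG.C

/-! Closures of groups of units modulo products of linear and real quadratic polynomials. -/

set_option autoImplicit false

open Polynomial

namespace Pool.Agent.Helper12.WG

open Pool.Agent.N874.WG (toP)
open Pool.Agent.Results.MP_fd87b4_nt.LevelOneForTheLine (Level1 IntPts Settled Ru UnitMod InClosure PadicPts)

variable {p : ℕ} [Fact p.Prime]

/-- `(z - X) ^ n` is in the closure of the group of the units modulo `f` which are `1` modulo `K` -/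
def CloseAt (K : ℤ) (n : ℕ) (f : ℤ[X]) (z : ℤ_[p]) : Prop :=
  ∀ k : ℕ, ∃ a a' w : ℤ[X], (1 + C K * a) * (1 + C K * a') = 1 + f * w ∧
    ∃ b c : ℤ_[p][X], (C z - X) ^ n = toP p (1 + C K * a) + toP p f * b + C ((p : ℤ_[p]) ^ k) * c

/-- for all `K` -/
def Close (f : ℤ[X]) (z : ℤ_[p]) : Prop := ∀ K : ℤ, K ≠ 0 → ∃ n : ℕ, 0 < n ∧ CloseAt K n f z

theorem one_add_pow {R : Type} [CommRing R] (K a : R) (n : ℕ) : ∃ b : R, (1 + K * a) ^ n = 1 + K * b := by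
  obtain ⟨c, hc⟩ := sub_dvd_pow_sub_pow (1 + K * a) 1 n
  refine ⟨a * c, ?_⟩
  rw [one_pow] at hc
  linear_combination hc

theorem CloseAt.pow {K : ℤ} {n : ℕ} {f : ℤ[X]} {z : ℤ_[p]} (h : CloseAt K n f z) (m : ℕ) :
    CloseAt K (n * m) f z := by
  intro k
  obtain ⟨a, a', w, h1, b, c, h2⟩ := h k
  obtain ⟨A, hA⟩ := one_add_pow (C K) a m
  obtain ⟨A', hA'⟩ := one_add_pow (C K) a' m
  obtain ⟨W, hW⟩ := one_add_pow f w m
  refine ⟨A, A', W, by rw [← hA, ← hA', ← mul_pow, h1, hW], ?_⟩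
  obtain ⟨s, hs⟩ := sub_dvd_pow_sub_pow ((C z - X) ^ n) (toP p (1 + C K * a)) m
  refine ⟨b * s, c * s, ?_⟩
  have e : toP p (1 + C K * A) = toP p (1 + C K * a) ^ m := by
    rw [← hA, toP, toP, Polynomial.map_pow]
  rw [e, pow_mul]
  rw [h2] at hs ⊢
  linear_combination hs

theorem close_linear {a : ℤ} {z : ℤ_[p]} {N : ℕ} (hN : 0 < N) (h : (z - a) ^ N = 1) : Close (X - C a) z := by
  intro K _
  refine ⟨N, hN, fun k => ⟨0, 0, 0, by ring, ?_⟩⟩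
  obtain ⟨s, hs⟩ := sub_dvd_pow_sub_pow (C z - X : ℤ_[p][X]) (C (z - a)) N
  refine ⟨-s, 0, ?_⟩
  rw [← C_pow, h] at hs
  have e : toP p (X - C a) = X - C (a : ℤ_[p]) := by simp [toP]
  have e1 : toP p (1 + C K * 0) = 1 := by simp [toP]
  rw [e, e1]
  rw [C_sub, C_1] at hs
  linear_combination hs

/-! ### the quadratic case -/

/-- `re + im (2 X + b)` -/
noncomputable def pol {Δ : ℤ} (b : ℤ) (u : Qp p Δ) : ℤ_[p][X] := C u.re + C u.im * (2 * X + C (b : ℤ_[p]))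

theorem pol_mul {b c : ℤ} (u v : Qp p (b ^ 2 - 4 * c)) :
    pol b u * pol b v = pol b (u * v) + toP p (X ^ 2 + C b * X + C c) * C (4 * u.im * v.im) := by
  have e : toP p (X ^ 2 + C b * X + C c) = X ^ 2 + C (b : ℤ_[p]) * X + C (c : ℤ_[p]) := by simp [toP]
  rw [e]
  unfold pol
  simp only [QuadraticAlgebra.re_mul, QuadraticAlgebra.im_mul, zero_mul, add_zero]
  push_cast
  simp only [C_add, C_mul, C_sub, C_pow]
  have h4 : (C 4 : ℤ_[p][X]) = 4 := rfl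
  rw [h4]
  ring

/-- `P ≡ pol u` modulo `f` -/
def Rel (b c : ℤ) (P : ℤ_[p][X]) (u : Qp p (b ^ 2 - 4 * c)) : Prop :=
  ∃ B, P = pol b u + toP p (X ^ 2 + C b * X + C c) * B

theorem Rel.mul {b c : ℤ} {P P' : ℤ_[p][X]} {u u' : Qp p (b ^ 2 - 4 * c)} (h : Rel b c P u) (h' : Rel b c P' u') :
    Rel b c (P * P') (u * u') := by
  obtain ⟨B, rfl⟩ := h
  obtain ⟨B', rfl⟩ := h'
  have h1 := pol_mul u u'
  exact ⟨C (4 * u.im * u'.im) + pol b u * B' + B * pol b u' + toP p (X ^ 2 + C b * X + C c) * B * B', by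
    linear_combination h1⟩

theorem Rel.one (b c : ℤ) : Rel b c (1 : ℤ_[p][X]) 1 := by
  refine ⟨0, ?_⟩
  unfold pol
  rw [QuadraticAlgebra.re_one, QuadraticAlgebra.im_one]
  simp

theorem Rel.pow {b c : ℤ} {P : ℤ_[p][X]} {u : Qp p (b ^ 2 - 4 * c)} (h : Rel b c P u) (n : ℕ) :
    Rel b c (P ^ n) (u ^ n) := by
  induction n with
  | zero => rw [pow_zero, pow_zero]; exact Rel.one b c
  | succ n ih => rw [pow_succ, pow_succ]; exact ih.mul h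

theorem pell_pow {Δ : ℤ} (a : Pell.Solution₁ Δ) (n : ℕ) :
    ((⟨(a.x : ℤ_[p]), (a.y : ℤ_[p])⟩ : Qp p Δ)) ^ n = ⟨((a ^ n).x : ℤ_[p]), ((a ^ n).y : ℤ_[p])⟩ := by
  induction n with
  | zero =>
    rw [pow_zero, pow_zero]
    ext <;> simp [QuadraticAlgebra.re_one, QuadraticAlgebra.im_one]
  | succ n ih =>
    rw [pow_succ, ih, pow_succ]
    ext
    · rw [QuadraticAlgebra.re_mul, Pell.Solution₁.x_mul]
      push_cast
      ring
    · rw [QuadraticAlgebra.im_mul, Pell.Solution₁.y_mul]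
      push_cast
      ring

theorem pell_mod {Δ : ℤ} (a : Pell.Solution₁ Δ) {K : ℤ} (hK : K ≠ 0) :
    ∃ m : ℕ, 0 < m ∧ K ∣ (a ^ m).x - 1 ∧ K ∣ (a ^ m).y := by
  have : NeZero K.natAbs := ⟨Int.natAbs_ne_zero.2 hK⟩
  obtain ⟨i, j, hij, h⟩ := Finite.exists_ne_map_eq_of_infinite (fun n : ℕ =>
    ((((a ^ n).x : ℤ) : ZMod K.natAbs), (((a ^ n).y : ℤ) : ZMod K.natAbs)))
  wlog hlt : i < j generalizing i j
  · exact this j i hij.symm h.symm (by omega)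
  have hdvd : ∀ x y : ℤ, ((x : ℤ) : ZMod K.natAbs) = ((y : ℤ) : ZMod K.natAbs) → K ∣ y - x := by
    intro x y hxy
    rw [ZMod.intCast_eq_intCast_iff_dvd_sub] at hxy
    exact Int.natAbs_dvd.1 hxy
  obtain ⟨r, hr⟩ := hdvd _ _ (Prod.ext_iff.1 h).1
  obtain ⟨s, hs⟩ := hdvd _ _ (Prod.ext_iff.1 h).2
  have e : a ^ (j - i) = a ^ j * (a ^ i)⁻¹ := by
    rw [eq_mul_inv_iff_mul_eq, ← pow_add, Nat.sub_add_cancel hlt.le]
  have hp := (a ^ i).prop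
  refine ⟨j - i, by omega, ?_, ?_⟩
  · rw [e, Pell.Solution₁.x_mul, Pell.Solution₁.x_inv, Pell.Solution₁.y_inv]
    refine ⟨r * (a ^ i).x - Δ * s * (a ^ i).y, ?_⟩
    linear_combination (a ^ i).x * hr - Δ * (a ^ i).y * hs + hp
  · rw [e, Pell.Solution₁.y_mul, Pell.Solution₁.x_inv, Pell.Solution₁.y_inv]
    refine ⟨s * (a ^ i).x - r * (a ^ i).y, ?_⟩
    linear_combination (a ^ i).x * hs - (a ^ i).y * hr

theorem close_quadratic (hp2 : p ≠ 2) {b c : ℤ} (hΔ : 0 < b ^ 2 - 4 * c) (hsq : ¬ IsSquare (b ^ 2 - 4 * c))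
    {z : ℤ_[p]} {N : ℕ} (hN : 0 < N) (h : (z ^ 2 + b * z + c) ^ N = 1) : Close (X ^ 2 + C b * X + C c) z := by
  intro K hK
  obtain ⟨a, hax, hay⟩ := Pell.Solution₁.exists_pos_of_not_isSquare hΔ hsq
  obtain ⟨m₀, hm₀, ⟨r, hr⟩, ⟨s, hs⟩⟩ := pell_mod a hK
  obtain ⟨h2, hh2⟩ := (isUnit_two hp2).exists_left_inv
  have hE : Nm (⟨(a.x : ℤ_[p]), (a.y : ℤ_[p])⟩ : Qp p (b ^ 2 - 4 * c)) = 1 := by
    unfold Nm
    have := congrArg (Int.cast : ℤ → ℤ_[p]) a.prop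
    push_cast at this ⊢
    exact this
  have hE' : ∀ n : ℕ, 0 < n → ((⟨(a.x : ℤ_[p]), (a.y : ℤ_[p])⟩ : Qp p (b ^ 2 - 4 * c)) ^ n).im ≠ 0 := by
    intro n hn
    rw [pell_pow]
    obtain ⟨k, rfl⟩ : ∃ k, n = k.succ := ⟨n - 1, by omega⟩
    have := Pell.Solution₁.y_pow_succ_pos (by omega : 0 < a.x) hay k
    exact Int.cast_ne_zero.2 this.ne'
  have hu : Nm (⟨z + b * h2, -h2⟩ : Qp p (b ^ 2 - 4 * c)) ^ N = 1 := by
    rw [← h]
    congr 1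
    unfold Nm
    push_cast
    linear_combination ((b : ℤ_[p]) * z + c * (2 * h2 + 1)) * hh2
  obtain ⟨n, hn, hcl⟩ := unit_closure hp2 hE hE' hm₀ hN hu
  refine ⟨n, hn, fun k => ?_⟩
  obtain ⟨j, hj⟩ := hcl k
  rw [pell_pow] at hj
  have hx : (a ^ m₀).x = 1 + K * r := by linear_combination hr
  have hy : (a ^ m₀).y = K * s := hs
  obtain ⟨a1, ha1⟩ := one_add_pow (C K) (C r + C s * (2 * X + C b)) j
  obtain ⟨a2, ha2⟩ := one_add_pow (C K) (C r - C s * (2 * X + C b)) j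
  obtain ⟨w, hw⟩ := one_add_pow (X ^ 2 + C b * X + C c) (-C (4 * (K * s) ^ 2)) j
  refine ⟨a1, a2, w, ?_, ?_⟩
  · rw [← ha1, ← ha2, ← hw, ← mul_pow]
    congr 1
    have hp := (a ^ m₀).prop
    rw [hx, hy] at hp
    have hp' := congrArg (C : ℤ → ℤ[X]) hp
    have e4 : (C 4 : ℤ[X]) = 4 := rfl
    simp only [C_sub, C_mul, C_pow, C_add, C_1, e4] at hp' ⊢
    linear_combination hp'
  · have r1 : Rel b c ((C z - X) ^ n) ((⟨z + b * h2, -h2⟩ : Qp p (b ^ 2 - 4 * c)) ^ n) := by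
      refine Rel.pow ⟨0, ?_⟩ n
      unfold pol
      have e1 : 2 * C h2 = (1 : ℤ_[p][X]) := by
        have e0 : (2 : ℤ_[p][X]) = C 2 := rfl
        rw [e0, ← C_mul, mul_comm, hh2, C_1]
      simp only [C_add, C_mul, C_neg]
      linear_combination X * e1
    have r2 : Rel b c (toP p (1 + C K * a1))
        ((⟨((a ^ m₀).x : ℤ_[p]), ((a ^ m₀).y : ℤ_[p])⟩ : Qp p (b ^ 2 - 4 * c)) ^ j) := by
      rw [← ha1, toP, Polynomial.map_pow]
      refine Rel.pow ⟨0, ?_⟩ j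
      unfold pol
      rw [hx, hy]
      simp only [Polynomial.map_add, Polynomial.map_mul, Polynomial.map_one, map_C, map_X, Polynomial.map_ofNat]
      simp only [eq_intCast]
      push_cast
      simp only [C_add, C_mul, C_1]
      ring
    obtain ⟨B1, hB1⟩ := r1
    obtain ⟨B2, hB2⟩ := r2
    obtain ⟨y, hy⟩ := exists_of_D hj
    refine ⟨B1 - B2, C y.re + C y.im * (2 * X + C (b : ℤ_[p])), ?_⟩
    have e2 : pol b ((⟨z + b * h2, -h2⟩ : Qp p (b ^ 2 - 4 * c)) ^ n) -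
        pol b ((⟨((a ^ m₀).x : ℤ_[p]), ((a ^ m₀).y : ℤ_[p])⟩ : Qp p (b ^ 2 - 4 * c)) ^ j) =
        C ((p : ℤ_[p]) ^ k) * (C y.re + C y.im * (2 * X + C (b : ℤ_[p]))) := by
      have e3 := congrArg QuadraticAlgebra.re hy
      have e4 := congrArg QuadraticAlgebra.im hy
      rw [QuadraticAlgebra.re_sub] at e3
      rw [QuadraticAlgebra.im_sub] at e4
      simp only at e3 e4
      have e5 := congrArg (C : ℤ_[p] → ℤ_[p][X]) e3
      have e6 := congrArg (C : ℤ_[p] → ℤ_[p][X]) e4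
      rw [C_sub, C_mul] at e5 e6
      unfold pol
      linear_combination e5 + (2 * X + C (b : ℤ_[p])) * e6
    rw [hB1, hB2]
    linear_combination e2

/-! ### products of coprime polynomials -/

theorem dvd_of_const {S : Type} [CommRing S] [IsDomain S] {F Y : S[X]} (hF : F.Monic) {K : S} (hK : K ≠ 0)
    (h : F ∣ C K * Y) : F ∣ Y := by
  rw [← modByMonic_eq_zero_iff_dvd hF] at h ⊢
  rw [← smul_eq_C_mul, smul_modByMonic, smul_eq_zero] at h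
  exact h.resolve_left hK

theorem cancel {F Y S W : ℤ_[p][X]} (hF : F.Monic) {K ε : ℤ_[p]} (hε : IsUnit ε) {e k : ℕ}
    (hK : K = ε * (p : ℤ_[p]) ^ e) (h : C K * Y = F * S + C ((p : ℤ_[p]) ^ (k + e)) * W) :
    ∃ B V : ℤ_[p][X], Y = F * B + C ((p : ℤ_[p]) ^ k) * V := by
  obtain ⟨ε', hε'⟩ := hε.exists_left_inv
  have hpe : (p : ℤ_[p]) ^ e ≠ 0 := pow_ne_zero _ (Nat.cast_ne_zero.2 (Fact.out : p.Prime).ne_zero)
  have h1 : K • (Y %ₘ F) = ((p : ℤ_[p]) ^ (k + e)) • (W %ₘ F) := by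
    rw [← smul_modByMonic, ← smul_modByMonic, smul_eq_C_mul, smul_eq_C_mul, h, add_modByMonic,
      self_mul_modByMonic hF, zero_add]
  have h2 : Y %ₘ F = ((p : ℤ_[p]) ^ k) • (ε' • (W %ₘ F)) := by
    rw [hK, pow_add, mul_comm ((p : ℤ_[p]) ^ k), mul_comm ε, mul_smul, mul_smul] at h1
    have h3 := smul_right_injective ℤ_[p][X] hpe h1
    calc Y %ₘ F = (ε' * ε) • (Y %ₘ F) := by rw [hε', one_smul]
      _ = ε' • (ε • (Y %ₘ F)) := mul_smul _ _ _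
      _ = ε' • (((p : ℤ_[p]) ^ k) • (W %ₘ F)) := by rw [h3]
      _ = _ := smul_comm _ _ _
  refine ⟨Y /ₘ F, ε' • (W %ₘ F), ?_⟩
  rw [← smul_eq_C_mul, ← h2]
  have := modByMonic_add_div Y F
  linear_combination -this

theorem Close.mul {f₁ f₂ : ℤ[X]} (hf₁ : f₁.Monic) (hf₂ : f₂.Monic) {c₁ c₂ : ℤ[X]} {K₀ : ℤ} (hK₀ : K₀ ≠ 0)
    (hc : f₁ * c₁ + f₂ * c₂ = C K₀) {z : ℤ_[p]} (h₁ : Close f₁ z) (h₂ : Close f₂ z) : Close (f₁ * f₂) z := by
  intro K hK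
  obtain ⟨n₁, hn₁, g₁⟩ := h₁ (K * K₀) (mul_ne_zero hK hK₀)
  obtain ⟨n₂, hn₂, g₂⟩ := h₂ (K * K₀) (mul_ne_zero hK hK₀)
  refine ⟨n₁ * n₂, Nat.mul_pos hn₁ hn₂, fun k => ?_⟩
  have hK' : ((K₀ : ℤ) : ℤ_[p]) ≠ 0 := Int.cast_ne_zero.2 hK₀
  have hspec := PadicInt.unitCoeff_spec hK'
  obtain ⟨e, he⟩ : ∃ e : ℕ, e = PadicInt.valuation ((K₀ : ℤ) : ℤ_[p]) := ⟨_, rfl⟩
  rw [← he] at hspec
  obtain ⟨a₁, a₁', w₁, m₁, b₁, d₁, r₁⟩ := (g₁.pow n₂) (k + e)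
  have g₂' := g₂.pow n₁
  rw [mul_comm n₂ n₁] at g₂'
  obtain ⟨a₂, a₂', w₂, m₂, b₂, d₂, r₂⟩ := g₂' (k + e)
  have hC : (C (K * K₀) : ℤ[X]) = C K * C K₀ := C_mul
  rw [hC] at m₁ m₂ r₁ r₂
  -- the unit
  obtain ⟨a, ha⟩ : ∃ a : ℤ[X], a = a₁ * c₂ * f₂ + a₂ * c₁ * f₁ := ⟨_, rfl⟩
  obtain ⟨a', ha'⟩ : ∃ a' : ℤ[X], a' = a₁' * c₂ * f₂ + a₂' * c₁ * f₁ := ⟨_, rfl⟩
  have u1 : 1 + C K * a = (1 + C K * C K₀ * a₁) + f₁ * (C K * c₁ * (a₂ - a₁)) := by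
    rw [ha, ← hc]
    ring
  have u2 : 1 + C K * a = (1 + C K * C K₀ * a₂) + f₂ * (C K * c₂ * (a₁ - a₂)) := by
    rw [ha, ← hc]
    ring
  have v1 : 1 + C K * a' = (1 + C K * C K₀ * a₁') + f₁ * (C K * c₁ * (a₂' - a₁')) := by
    rw [ha', ← hc]
    ring
  have v2 : 1 + C K * a' = (1 + C K * C K₀ * a₂') + f₂ * (C K * c₂ * (a₁' - a₂')) := by
    rw [ha', ← hc]
    ring
  have p1 : f₁ ∣ (1 + C K * a) * (1 + C K * a') - 1 := by
    rw [u1, v1]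
    exact ⟨w₁ + (1 + C K * C K₀ * a₁) * (C K * c₁ * (a₂' - a₁')) + (C K * c₁ * (a₂ - a₁)) * (1 + C K * C K₀ * a₁') +
      f₁ * (C K * c₁ * (a₂ - a₁)) * (C K * c₁ * (a₂' - a₁')), by linear_combination m₁⟩
  have p2 : f₂ ∣ (1 + C K * a) * (1 + C K * a') - 1 := by
    rw [u2, v2]
    exact ⟨w₂ + (1 + C K * C K₀ * a₂) * (C K * c₂ * (a₁' - a₂')) + (C K * c₂ * (a₁ - a₂)) * (1 + C K * C K₀ * a₂') +
      f₂ * (C K * c₂ * (a₁ - a₂)) * (C K * c₂ * (a₁' - a₂')), by linear_combination m₂⟩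
  have p3 : f₁ * f₂ ∣ (1 + C K * a) * (1 + C K * a') - 1 := by
    refine dvd_of_const (hf₁.mul hf₂) hK₀ ?_
    obtain ⟨s₁, hs₁⟩ := p1
    obtain ⟨s₂, hs₂⟩ := p2
    refine ⟨c₁ * s₂ + c₂ * s₁, ?_⟩
    rw [← hc]
    linear_combination (f₂ * c₂) * hs₁ + (f₁ * c₁) * hs₂
  obtain ⟨w, hw⟩ := p3
  refine ⟨a, a', w, by linear_combination hw, ?_⟩
  -- the approximation
  have t : ∀ x y : ℤ[X], toP p (x * y) = toP p x * toP p y := fun x y => Polynomial.map_mul _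
  have t' : ∀ x y : ℤ[X], toP p (x + y) = toP p x + toP p y := fun x y => Polynomial.map_add _
  have tu1 := congrArg (toP p) u1
  have tu2 := congrArg (toP p) u2
  rw [t' (1 + C K * C K₀ * a₁), t f₁] at tu1
  rw [t' (1 + C K * C K₀ * a₂), t f₂] at tu2
  have q1 : (C z - X) ^ (n₁ * n₂) - toP p (1 + C K * a) =
      toP p f₁ * (b₁ - toP p (C K * c₁ * (a₂ - a₁))) + C ((p : ℤ_[p]) ^ (k + e)) * d₁ := by
    linear_combination r₁ - tu1
  have q2 : (C z - X) ^ (n₁ * n₂) - toP p (1 + C K * a) =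
      toP p f₂ * (b₂ - toP p (C K * c₂ * (a₁ - a₂))) + C ((p : ℤ_[p]) ^ (k + e)) * d₂ := by
    linear_combination r₂ - tu2
  have hcP : toP p f₁ * toP p c₁ + toP p f₂ * toP p c₂ = C ((K₀ : ℤ) : ℤ_[p]) := by
    rw [← t, ← t, ← t', hc]
    simp [toP]
  have hmon : (toP p (f₁ * f₂)).Monic := (hf₁.mul hf₂).map _
  obtain ⟨B, V, hBV⟩ := cancel (F := toP p (f₁ * f₂)) (Y := (C z - X) ^ (n₁ * n₂) - toP p (1 + C K * a))
    (S := toP p c₁ * (b₂ - toP p (C K * c₂ * (a₁ - a₂))) + toP p c₂ * (b₁ - toP p (C K * c₁ * (a₂ - a₁))))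
    (W := toP p f₁ * toP p c₁ * d₂ + toP p f₂ * toP p c₂ * d₁) hmon (PadicInt.unitCoeff hK').isUnit
    (e := e) (k := k) hspec (by
      rw [← hcP, t]
      linear_combination (toP p f₂ * toP p c₂) * q1 + (toP p f₁ * toP p c₁) * q2)
  exact ⟨B, V, by linear_combination hBV⟩

theorem close_one (z : ℤ_[p]) : Close 1 z := by
  intro K _
  refine ⟨1, one_pos, fun k => ⟨0, 0, 0, by ring, (C z - X) - 1, 0, ?_⟩⟩
  have e1 : toP p (1 + C K * 0) = 1 := by simp [toP]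
  have e2 : toP p (1 : ℤ[X]) = 1 := by simp [toP]
  rw [e1, e2]
  ring

theorem close_prod {ι : Type} [DecidableEq ι] (s : Finset ι) (f : ι → ℤ[X]) (hm : ∀ i, (f i).Monic)
    (hd : ∀ i, 0 < (f i).natDegree)
    (hco : ∀ i j, i ≠ j → IsCoprime ((f i).map (Int.castRingHom ℚ)) ((f j).map (Int.castRingHom ℚ)))
    {z : ℤ_[p]} (h : ∀ i, Close (f i) z) : Close (∏ i ∈ s, f i) z := by
  induction s using Finset.induction_on with
  | empty => rw [Finset.prod_empty]; exact close_one z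
  | insert a s ha ih =>
    rw [Finset.prod_insert ha]
    have h1 : IsCoprime ((f a).map (Int.castRingHom ℚ)) ((∏ i ∈ s, f i).map (Int.castRingHom ℚ)) := by
      rw [Polynomial.map_prod]
      exact IsCoprime.prod_right fun i hi => hco a i (fun h => ha (h ▸ hi))
    have h2 : (∏ i ∈ s, f i).Monic := monic_prod_of_monic _ _ fun i _ => hm i
    obtain ⟨P, Q, K₀, hK₀, hPQ⟩ := bezout (hm a) h2 (hd a) h1
    exact Close.mul (hm a) h2 hK₀ hPQ (h a) ih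

theorem level_of_close {f : ℤ[X]} {z : ℤ_[p]} (hz : IsUnit (aeval z f)) (h : Close f z) : z ∈ Level1 p f := by
  obtain ⟨n, hn, hcl⟩ := h 1 one_ne_zero
  refine ⟨?_, n, hn, fun k => ?_⟩
  · change IsUnit ((toP p f).eval z)
    rw [toP_eval]
    exact hz
  · obtain ⟨a, a', w, h1, b, c, h2⟩ := hcl k
    exact ⟨1 + C 1 * a, ⟨1 + C 1 * a', w, h1⟩, b, c, h2⟩

/-- **Exact level one.** -/
theorem level_eq (hp2 : p ≠ 2) {ι : Type} [Fintype ι] [DecidableEq ι] (f : ι → ℤ[X])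
    (hf : ∀ i, (∃ a : ℤ, f i = X - C a) ∨
      ∃ b c : ℤ, f i = X ^ 2 + C b * X + C c ∧ 0 < b ^ 2 - 4 * c ∧ ¬ IsSquare (b ^ 2 - 4 * c))
    (hco : ∀ i j, i ≠ j → IsCoprime ((f i).map (Int.castRingHom ℚ)) ((f j).map (Int.castRingHom ℚ))) :
    Level1 p (∏ i, f i) = {z : ℤ_[p] | ∀ i, ∃ n : ℕ, 0 < n ∧ (aeval z (f i)) ^ n = 1} := by
  have hm : ∀ i, (f i).Monic := by
    intro i
    rcases hf i with ⟨a, h⟩ | ⟨b, c, h, -, -⟩
    · rw [h]; exact monic_X_sub_C a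
    · rw [h]; exact Pool.Agent.N874.WG.Q_monic b c
  have hd : ∀ i, 0 < (f i).natDegree := by
    intro i
    rcases hf i with ⟨a, h⟩ | ⟨b, c, h, -, -⟩
    · rw [h, natDegree_X_sub_C]; exact one_pos
    · rw [h]
      have := Pool.Agent.N874.WG.Q_natDegree b c
      unfold Pool.Agent.N874.WG.Q at this
      omega
  refine Set.Subset.antisymm ?_ ?_
  · intro z hz i
    obtain ⟨n, hn, h⟩ := exists_approx hz
    exact ⟨2 * n, by omega, root_of_dvd (hm i) (Finset.dvd_prod_of_mem f (Finset.mem_univ i)) h⟩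
  · intro z hz
    choose N hN h using hz
    refine level_of_close ?_ (close_prod Finset.univ f hm hd hco fun i => ?_)
    · rw [map_prod, IsUnit.prod_iff]
      exact fun i _ => IsUnit.of_pow_eq_one (h i) (hN i).ne'
    · rcases hf i with ⟨a, h1⟩ | ⟨b, c, h1, h2, h3⟩
      · have h4 := h i
        rw [h1] at h4 ⊢
        refine close_linear (hN i) ?_
        rw [map_sub, aeval_X, aeval_C] at h4
        exact h4
      · have h4 := h i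
        rw [h1] at h4 ⊢
        refine close_quadratic hp2 h2 h3 (hN i) ?_
        simp only [map_add, map_mul, map_pow, aeval_X, aeval_C] at h4
        exact h4

end Pool.Agent.Helper12.WG
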