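import Pool.Agent.Helper12.WG.D

/-! Numbers of weakly global points of level one: one real quadratic component, and two components which differ by two. -/

set_option autoImplicit false

open Polynomial

namespace Pool.Agent.Helper12.WG

open Pool.Agent.N874.WG (toP toP_eval_int int_pm prime_dvd)
open Pool.Agent.Results.MP_fd87b4_nt.LevelOneForTheLine (Level1 IntPts Settled Ru)

variable {p : ℕ} [Fact p.Prime]

/-- the roots of unity in `ℤ_p`, `p` odd, have orders dividing `p - 1` -/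
theorem unity_pow (hp2 : p ≠ 2) {ζ : ℤ_[p]} {n : ℕ} (hn : 0 < n) (h : ζ ^ n = 1) : ζ ^ (p - 1) = 1 := by
  have hp : p.Prime := Fact.out
  have hz : PadicInt.toZMod ζ ≠ 0 := by
    intro h0
    have := congrArg (PadicInt.toZMod (p := p)) h
    rw [map_pow, h0, map_one, zero_pow hn.ne'] at this
    exact zero_ne_one this
  have h1 : PadicInt.toZMod (ζ ^ (p - 1)) = 1 := by
    rw [map_pow]
    exact ZMod.pow_card_sub_one_eq_one hz
  obtain ⟨η, hη⟩ : ∃ η, η = ζ ^ (p - 1) := ⟨_, rfl⟩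
  rw [← hη] at h1 ⊢
  have hηn : η ^ n = 1 := by rw [hη, ← pow_mul, mul_comm, pow_mul, h, one_pow]
  have hpos : 0 < orderOf η := orderOf_pos_iff.2 (isOfFinOrder_iff_pow_eq_one.2 ⟨n, hn, hηn⟩)
  by_contra hne
  have hord : orderOf η ≠ 1 := fun h0 => hne (orderOf_eq_one_iff.1 h0)
  obtain ⟨q, hq, k, hk⟩ := Nat.exists_prime_and_dvd hord
  have hprim : IsPrimitiveRoot (η ^ k) q := (IsPrimitiveRoot.orderOf η).pow hpos (by rw [hk, mul_comm])
  have h2 : PadicInt.toZMod (η ^ k) = 1 := by rw [map_pow, h1, one_pow]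
  have hsum : ∑ i ∈ Finset.range q, (η ^ k) ^ i = 0 := hprim.geom_sum_eq_zero hq.one_lt
  have h3 : ((q : ℕ) : ZMod p) = 0 := by
    have := congrArg (PadicInt.toZMod (p := p)) hsum
    rw [map_sum, map_zero] at this
    simpa [map_pow, h2] using this
  rw [ZMod.natCast_eq_zero_iff, Nat.prime_dvd_prime_iff_eq hp hq] at h3
  subst h3
  have h4 := prime_dvd hq hp2 hprim
  have := Nat.le_of_dvd (by have := hp.two_le; omega) h4
  have := hp.two_le
  omega

theorem level_single (hp2 : p ≠ 2) {b c : ℤ} (hΔ : 0 < b ^ 2 - 4 * c) (hsq : ¬ IsSquare (b ^ 2 - 4 * c)) :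
    Level1 p (X ^ 2 + C b * X + C c) = {z : ℤ_[p] | (z ^ 2 + b * z + c) ^ (p - 1) = 1} := by
  have h1 := level_eq hp2 (fun _ : Unit => X ^ 2 + C b * X + C c) (fun _ => Or.inr ⟨b, c, rfl, hΔ, hsq⟩)
    (fun i j hij => absurd (Subsingleton.elim i j) hij)
  rw [Fintype.prod_unique] at h1
  have e : ∀ z : ℤ_[p], aeval z (X ^ 2 + C b * X + C c : ℤ[X]) = z ^ 2 + b * z + c := by
    intro z
    simp
  rw [h1]
  ext z
  simp only [Set.mem_ofPred_eq, e]
  constructor
  · intro h
    obtain ⟨n, hn, h⟩ := h ()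
    exact unity_pow hp2 hn h
  · intro h _
    exact ⟨p - 1, by have := (Fact.out : p.Prime).two_le; omega, h⟩

/-- a point of level one in a good residue class -/
theorem exists_point_class (b c : ℤ) (r : ℕ) (h1 : ((r : ZMod p)) ^ 2 + b * r + c ≠ 0)
    (h2 : 2 * (r : ZMod p) + b ≠ 0) :
    ∃ z : ℤ_[p], (z ^ 2 + b * z + c) ^ (p - 1) = 1 ∧ PadicInt.toZMod z = r := by
  have hp : p.Prime := Fact.out
  have hp1 : 0 < p - 1 := by have := hp.two_le; omega
  have unit_of : ∀ x : ℤ_[p], PadicInt.toZMod x ≠ 0 → ‖x‖ = 1 := by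
    intro x hx
    rw [← PadicInt.isUnit_iff]
    by_contra hcon
    apply hx
    rw [← RingHom.mem_ker, PadicInt.ker_toZMod, IsLocalRing.mem_maximalIdeal]
    exact hcon
  have small_of : ∀ x : ℤ_[p], PadicInt.toZMod x = 0 → ‖x‖ < 1 := by
    intro x hx
    rw [← RingHom.mem_ker, PadicInt.ker_toZMod, IsLocalRing.mem_maximalIdeal, mem_nonunits_iff,
      PadicInt.isUnit_iff] at hx
    exact lt_of_le_of_ne (PadicInt.norm_le_one _) hx
  obtain ⟨F, hF⟩ : ∃ F : ℤ_[p][X], F = (X ^ 2 + C (b : ℤ_[p]) * X + C (c : ℤ_[p])) ^ (p - 1) - 1 := ⟨_, rfl⟩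
  have e0 : ∀ x : ℤ_[p], F.aeval x = (x ^ 2 + b * x + c) ^ (p - 1) - 1 := by
    intro x
    rw [hF]
    simp
  have e1 : F.derivative.aeval (r : ℤ_[p]) =
      ((p - 1 : ℕ) : ℤ_[p]) * ((r : ℤ_[p]) ^ 2 + b * r + c) ^ (p - 1 - 1) * (2 * r + b) := by
    rw [hF]
    simp [derivative_pow]
  have n1 : ‖F.derivative.aeval (r : ℤ_[p])‖ = 1 := by
    rw [e1]
    apply unit_of
    rw [map_mul, map_mul, map_pow, map_natCast]
    have k1 : ((p - 1 : ℕ) : ZMod p) ≠ 0 := by
      rw [Ne, ZMod.natCast_eq_zero_iff]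
      intro h
      have := Nat.le_of_dvd hp1 h
      omega
    have k2 : PadicInt.toZMod ((r : ℤ_[p]) ^ 2 + (b : ℤ_[p]) * (r : ℤ_[p]) + (c : ℤ_[p])) ≠ 0 := by
      rw [map_add, map_add, map_pow, map_mul, map_intCast, map_intCast, map_natCast]
      exact h1
    have k3 : PadicInt.toZMod (2 * (r : ℤ_[p]) + (b : ℤ_[p])) ≠ 0 := by
      rw [map_add, map_mul, map_intCast, map_natCast, map_ofNat]
      exact h2
    exact mul_ne_zero (mul_ne_zero k1 (pow_ne_zero _ k2)) k3
  have n2 : ‖F.aeval (r : ℤ_[p])‖ < 1 := by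
    rw [e0]
    apply small_of
    rw [map_sub, map_one, map_pow, map_add, map_add, map_pow, map_mul, map_intCast, map_intCast, map_natCast,
      ZMod.pow_card_sub_one_eq_one h1, sub_self]
  obtain ⟨z, hz1, hz2, -, -⟩ := hensels_lemma (F := F) (a := (r : ℤ_[p])) (by rw [n1]; simpa using n2)
  refine ⟨z, ?_, ?_⟩
  · rw [e0, sub_eq_zero] at hz1
    exact hz1
  · rw [n1] at hz2
    have h3 : PadicInt.toZMod (z - (r : ℤ_[p])) = 0 := by
      rw [← RingHom.mem_ker, PadicInt.ker_toZMod, IsLocalRing.mem_maximalIdeal, mem_nonunits_iff,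
        PadicInt.isUnit_iff]
      exact hz2.ne
    rw [map_sub, map_natCast, sub_eq_zero] at h3
    exact h3

/-- the quadratic polynomial takes each value at most twice -/
theorem quad_card (b c e : ℤ) (S : Finset ℤ) (hS : ∀ x ∈ S, x ^ 2 + b * x + c = e) : S.card ≤ 2 := by
  by_contra hcon
  push Not at hcon
  obtain ⟨x, y, w, hx, hy, hw, hxy, hxw, hyw⟩ := Finset.two_lt_card_iff.1 hcon
  have h1 := hS x hx
  have h2 := hS y hy
  have h3 := hS w hw
  have h4 : (x - y) * (x + y + b) = 0 := by linear_combination h1 - h2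
  have h5 : (x - w) * (x + w + b) = 0 := by linear_combination h1 - h3
  have h6 : x + y + b = 0 := (mul_eq_zero.1 h4).resolve_left (sub_ne_zero.2 hxy)
  have h7 : x + w + b = 0 := (mul_eq_zero.1 h5).resolve_left (sub_ne_zero.2 hxw)
  exact hyw (by linarith)

theorem int_card (b c : ℤ) (S : Finset ℤ) (hS : ∀ x ∈ S, x ^ 2 + b * x + c = 1 ∨ x ^ 2 + b * x + c = -1) :
    S.card ≤ 4 := by
  have h1 := quad_card b c 1 (S.filter fun x => x ^ 2 + b * x + c = 1) (fun x hx => (Finset.mem_filter.1 hx).2)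
  have h2 := quad_card b c (-1) (S.filter fun x => ¬ x ^ 2 + b * x + c = 1)
    (fun x hx => (hS x (Finset.mem_filter.1 hx).1).resolve_left (Finset.mem_filter.1 hx).2)
  have h3 := Finset.card_filter_add_card_filter_not (s := S) (fun x => x ^ 2 + b * x + c = 1)
  omega

/-- the good residue classes -/
theorem good_classes (hp2 : p ≠ 2) (b c : ℤ) : ∃ R : Finset ℕ, p ≤ R.card + 3 ∧ (∀ r ∈ R, r < p) ∧
    ∀ r ∈ R, ((r : ZMod p)) ^ 2 + b * r + c ≠ 0 ∧ 2 * (r : ZMod p) + b ≠ 0 := by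
  classical
  have hp : p.Prime := Fact.out
  have h20 : (2 : ZMod p) ≠ 0 := by
    intro h
    have : ((2 : ℕ) : ZMod p) = 0 := by exact_mod_cast h
    rw [ZMod.natCast_eq_zero_iff] at this
    exact hp2 ((Nat.prime_dvd_prime_iff_eq hp Nat.prime_two).1 this)
  have inj : ∀ x < p, ∀ y < p, ((x : ℕ) : ZMod p) = y → x = y := by
    intro x hx y hy h
    have := congrArg ZMod.val h
    rwa [ZMod.val_cast_of_lt hx, ZMod.val_cast_of_lt hy] at this
  obtain ⟨A, hA⟩ : ∃ A : Finset ℕ, A = (Finset.range p).filter fun r : ℕ => ((r : ZMod p)) ^ 2 + b * r + c = 0 := ⟨_, rfl⟩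
  obtain ⟨B, hB⟩ : ∃ B : Finset ℕ, B = (Finset.range p).filter fun r : ℕ => 2 * (r : ZMod p) + b = 0 := ⟨_, rfl⟩
  have hAc : A.card ≤ 2 := by
    by_contra hcon
    push Not at hcon
    obtain ⟨x, y, w, hx, hy, hw, hxy, hxw, hyw⟩ := Finset.two_lt_card_iff.1 hcon
    rw [hA, Finset.mem_filter, Finset.mem_range] at hx hy hw
    have h4 : ((x : ZMod p) - y) * (x + y + b) = 0 := by linear_combination hx.2 - hy.2
    have h5 : ((x : ZMod p) - w) * (x + w + b) = 0 := by linear_combination hx.2 - hw.2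
    have h6 : (x : ZMod p) + y + b = 0 :=
      (mul_eq_zero.1 h4).resolve_left (sub_ne_zero.2 fun h => hxy (inj x hx.1 y hy.1 h))
    have h7 : (x : ZMod p) + w + b = 0 :=
      (mul_eq_zero.1 h5).resolve_left (sub_ne_zero.2 fun h => hxw (inj x hx.1 w hw.1 h))
    exact hyw (inj y hy.1 w hw.1 (by linear_combination h6 - h7))
  have hBc : B.card ≤ 1 := by
    rw [Finset.card_le_one]
    intro x hx y hy
    rw [hB, Finset.mem_filter, Finset.mem_range] at hx hy
    refine inj x hx.1 y hy.1 ?_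
    have h4 : (2 : ZMod p) * ((x : ZMod p) - y) = 0 := by linear_combination hx.2 - hy.2
    exact sub_eq_zero.1 ((mul_eq_zero.1 h4).resolve_left h20)
  refine ⟨(Finset.range p) \ (A ∪ B), ?_, ?_, ?_⟩
  · have h1 := Finset.le_card_sdiff (A ∪ B) (Finset.range p)
    have h2 := Finset.card_union_le A B
    rw [Finset.card_range] at h1
    omega
  · intro r hr
    exact Finset.mem_range.1 (Finset.mem_sdiff.1 hr).1
  · intro r hr
    obtain ⟨h1, h2⟩ := Finset.mem_sdiff.1 hr
    rw [Finset.mem_union, not_or] at h2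
    refine ⟨fun h => h2.1 ?_, fun h => h2.2 ?_⟩
    · rw [hA, Finset.mem_filter]
      exact ⟨h1, h⟩
    · rw [hB, Finset.mem_filter]
      exact ⟨h1, h⟩

/-- **One real quadratic component: level one is too large.** -/
theorem single_main (hp2 : p ≠ 2) {b c : ℤ} (hΔ : 0 < b ^ 2 - 4 * c) (hsq : ¬ IsSquare (b ^ 2 - 4 * c)) :
    (Level1 p (X ^ 2 + C b * X + C c)).Finite ∧
    (Level1 p (X ^ 2 + C b * X + C c)).ncard ≤ 2 * (p - 1) ∧
    p ≤ (Level1 p (X ^ 2 + C b * X + C c)).ncard + 3 ∧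
    (11 ≤ p → ¬ Settled p (X ^ 2 + C b * X + C c)) := by
  classical
  have hp : p.Prime := Fact.out
  have hp1 : 0 < p - 1 := by have := hp.two_le; omega
  have hL := level_single hp2 hΔ hsq
  have hQ : (X ^ 2 + C b * X + C c : ℤ[X]).Monic := Pool.Agent.N874.WG.Q_monic b c
  have hQd : (X ^ 2 + C b * X + C c : ℤ[X]).natDegree = 2 := Pool.Agent.N874.WG.Q_natDegree b c
  have hRm : ((X ^ 2 + C b * X + C c : ℤ[X]) ^ (p - 1) - 1).Monic := by
    refine (hQ.pow _).sub_of_left ?_
    rw [degree_one, ← natDegree_pos_iff_degree_pos, hQ.natDegree_pow, hQd]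
    omega
  have hRd : ((X ^ 2 + C b * X + C c : ℤ[X]) ^ (p - 1) - 1).natDegree ≤ 2 * (p - 1) := by
    refine (natDegree_sub_le _ _).trans (max_le ?_ (by simp))
    rw [hQ.natDegree_pow, hQd, mul_comm]
  have hfin := level_finite (p := p) (f := X ^ 2 + C b * X + C c) hRm.ne_zero (fun z hz => by
    rw [hL] at hz
    have hz' : (z ^ 2 + b * z + c) ^ (p - 1) = 1 := hz
    simp [hz'])
  obtain ⟨R, hR1, hR2, hR3⟩ := good_classes hp2 b c
  have hpt : ∀ r : R, ∃ z : ℤ_[p], (z ^ 2 + b * z + c) ^ (p - 1) = 1 ∧ PadicInt.toZMod z = ((r : ℕ) : ZMod p) :=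
    fun r => exists_point_class b c r (hR3 r r.2).1 (hR3 r r.2).2
  choose z hz1 hz2 using hpt
  have hzinj : Function.Injective z := by
    intro r s hrs
    have h1 := hz2 r
    rw [hrs, hz2 s] at h1
    have h2 := congrArg ZMod.val h1
    rw [ZMod.val_cast_of_lt (hR2 r r.2), ZMod.val_cast_of_lt (hR2 s s.2)] at h2
    exact Subtype.ext h2.symm
  have hcard : R.card ≤ (Level1 p (X ^ 2 + C b * X + C c)).ncard := by
    have h1 : (Set.range z).ncard = R.card := by
      rw [← Set.image_univ, Set.ncard_image_of_injective _ hzinj, Set.ncard_univ, Nat.card_eq_fintype_card,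
        Fintype.card_coe]
    rw [← h1]
    refine Set.ncard_le_ncard ?_ hfin.1
    rintro w ⟨r, rfl⟩
    rw [hL]
    exact hz1 r
  refine ⟨hfin.1, hfin.2.trans hRd, by omega, fun h11 hS => ?_⟩
  have hI : ∀ w ∈ Level1 p (X ^ 2 + C b * X + C c), ∃ x : ℤ, w = x ∧ (x ^ 2 + b * x + c = 1 ∨ x ^ 2 + b * x + c = -1) := by
    intro w hw
    rw [show Level1 p (X ^ 2 + C b * X + C c) = _ from hS] at hw
    obtain ⟨x, hx, rfl⟩ := hw
    refine ⟨x, rfl, ?_⟩
    have h1 : IsUnit (eval x (X ^ 2 + C b * X + C c : ℤ[X])) := hx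
    have h2 : eval x (X ^ 2 + C b * X + C c : ℤ[X]) = x ^ 2 + b * x + c := by simp
    rw [h2] at h1
    exact Int.isUnit_iff.1 h1
  have hz3 : ∀ r : R, ∃ x : ℤ, z r = x ∧ (x ^ 2 + b * x + c = 1 ∨ x ^ 2 + b * x + c = -1) := by
    intro r
    refine hI (z r) ?_
    rw [hL]
    exact hz1 r
  choose x hx1 hx2 using hz3
  have hxinj : Function.Injective x := fun r s hrs => hzinj (by rw [hx1, hx1, hrs])
  have h4 := int_card b c (Finset.univ.image x) (by
    intro y hy
    obtain ⟨r, -, rfl⟩ := Finset.mem_image.1 hy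
    exact hx2 r)
  rw [Finset.card_image_of_injective _ hxinj, Finset.card_univ, Fintype.card_coe] at h4
  omega

/-- **Two components which differ by two.** -/
theorem pair_main (hp2 : p ≠ 2) {b c : ℤ} (hΔ : 0 < b ^ 2 - 4 * (c + 2)) (hsq : ¬ IsSquare (b ^ 2 - 4 * c))
    (hsq' : ¬ IsSquare (b ^ 2 - 4 * (c + 2))) :
    Level1 p ((X ^ 2 + C b * X + C c) * (X ^ 2 + C b * X + C (c + 2))) = {z : ℤ_[p] | z ^ 2 + b * z + c = -1} ∧
    (Settled p ((X ^ 2 + C b * X + C c) * (X ^ 2 + C b * X + C (c + 2))) ↔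
      ∀ z : ℤ_[p], z ^ 2 + b * z + c = -1 → ∃ x : ℤ, z = x) := by
  have h1 := level_eq hp2 (fun i : Fin 2 => X ^ 2 + C b * X + C (c + if i = 0 then 0 else 2)) (fun i => by
      refine Or.inr ⟨b, c + if i = 0 then 0 else 2, rfl, ?_, ?_⟩
      · split_ifs <;> omega
      · split_ifs
        · rw [add_zero]; exact hsq
        · exact hsq') (fun i j hij => by
      have key : ∀ e e' : ℤ, e ≠ e' → IsCoprime ((X ^ 2 + C b * X + C e : ℤ[X]).map (Int.castRingHom ℚ))
          ((X ^ 2 + C b * X + C e' : ℤ[X]).map (Int.castRingHom ℚ)) := by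
        intro e e' hee
        have h0 : ((e - e' : ℤ) : ℚ) ≠ 0 := by
          rw [Int.cast_ne_zero]
          exact sub_ne_zero.2 hee
        refine ⟨C ((e - e' : ℤ) : ℚ)⁻¹, -C ((e - e' : ℤ) : ℚ)⁻¹, ?_⟩
        have h2 : C ((e - e' : ℤ) : ℚ)⁻¹ * C ((e - e' : ℤ) : ℚ) = (1 : ℚ[X]) := by
          rw [← C_mul, inv_mul_cancel₀ h0, C_1]
        simp only [Polynomial.map_add, Polynomial.map_mul, Polynomial.map_pow, map_X, map_C]
        simp only [eq_intCast]
        rw [Int.cast_sub, C_sub] at h2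
        rw [Int.cast_sub]
        linear_combination h2
      refine key _ _ ?_
      fin_cases i <;> fin_cases j <;> simp at hij ⊢)
  rw [Fin.prod_univ_two] at h1
  simp only [if_true, one_ne_zero, if_false, add_zero, Fin.isValue] at h1
  have e : ∀ (z : ℤ_[p]) (c' : ℤ), aeval z (X ^ 2 + C b * X + C c' : ℤ[X]) = z ^ 2 + b * z + c' := by
    intro z c'
    simp
  have hL : Level1 p ((X ^ 2 + C b * X + C c) * (X ^ 2 + C b * X + C (c + 2))) =
      {z : ℤ_[p] | z ^ 2 + b * z + c = -1} := by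
    rw [h1]
    ext z
    simp only [Set.mem_ofPred_eq]
    constructor
    · intro h
      obtain ⟨n, hn, g1⟩ := h 0
      obtain ⟨m, hm, g2⟩ := h 1
      simp only [if_true, one_ne_zero, if_false, add_zero, Fin.isValue] at g1 g2
      have hz : IsIntegral ℤ z :=
        (Elim_of_unity (h := X ^ 2 + C b * X + C c) (Pool.Agent.N874.WG.Q_monic b c)
          (by rw [show (X ^ 2 + C b * X + C c : ℤ[X]).natDegree = 2 from Pool.Agent.N874.WG.Q_natDegree b c]; norm_num)
          hn g1 g1).1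
      obtain ⟨t, ht⟩ := exists_conj hz
      have k1 : aeval t (X ^ 2 + C b * X + C c : ℤ[X]) ^ n = 1 := by
        have := (ht ((X ^ 2 + C b * X + C c) ^ n - 1)).1 (by rw [map_sub, map_pow, g1, map_one, sub_self])
        rwa [map_sub, map_pow, map_one, sub_eq_zero] at this
      have k2 : aeval t (X ^ 2 + C b * X + C (c + 2) : ℤ[X]) ^ m = 1 := by
        have := (ht ((X ^ 2 + C b * X + C (c + 2)) ^ m - 1)).1 (by rw [map_sub, map_pow, g2, map_one, sub_self])
        rwa [map_sub, map_pow, map_one, sub_eq_zero] at this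
      have n1 := Complex.norm_eq_one_of_pow_eq_one k1 hn.ne'
      have n2 := Complex.norm_eq_one_of_pow_eq_one k2 hm.ne'
      obtain ⟨v, hv⟩ : ∃ v : ℂ, v = aeval t (X ^ 2 + C b * X + C c : ℤ[X]) := ⟨_, rfl⟩
      have hv2 : aeval t (X ^ 2 + C b * X + C (c + 2) : ℤ[X]) = v + 2 := by
        have e6 : (C (c + 2) : ℤ[X]) = C c + 2 := by rw [C_add]; rfl
        rw [hv, e6]
        simp only [map_add, map_mul, map_pow, aeval_X, map_ofNat]
        ring
      rw [← hv] at n1
      rw [hv2] at n2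
      have s1 : v.re * v.re + v.im * v.im = 1 := by
        have := Complex.normSq_apply v
        rw [Complex.normSq_eq_norm_sq, n1] at this
        linarith
      have s2 : (v.re + 2) * (v.re + 2) + v.im * v.im = 1 := by
        have := Complex.normSq_apply (v + 2)
        rw [Complex.normSq_eq_norm_sq, n2] at this
        simp only [Complex.add_re, Complex.add_im, Complex.re_ofNat, Complex.im_ofNat, add_zero] at this
        linarith
      have s3 : v.re = -1 := by linarith
      have s4 : v.im = 0 := by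
        rw [s3] at s1
        have : v.im * v.im = 0 := by linarith
        exact mul_self_eq_zero.1 this
      have s5 : v = -1 := by
        apply Complex.ext
        · rw [s3]; simp
        · rw [s4]; simp
      have g3 := (ht (X ^ 2 + C b * X + C c + 1)).2 (by rw [map_add, ← hv, map_one, s5]; ring)
      rw [map_add, e, map_one] at g3
      linear_combination g3
    · intro h i
      refine ⟨2, by norm_num, ?_⟩
      rw [e]
      by_cases hi : i = 0
      · rw [if_pos hi, add_zero, h]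
        norm_num
      · rw [if_neg hi]
        push_cast
        have : z ^ 2 + b * z + (c + 2 : ℤ_[p]) = 1 := by linear_combination h
        rw [this, one_pow]
  refine ⟨hL, ?_, ?_⟩
  · intro hS z hz
    have h2 : z ∈ Level1 p ((X ^ 2 + C b * X + C c) * (X ^ 2 + C b * X + C (c + 2))) := by
      rw [hL]
      exact hz
    rw [show Level1 p ((X ^ 2 + C b * X + C c) * (X ^ 2 + C b * X + C (c + 2))) = _ from hS] at h2
    obtain ⟨x, -, hx⟩ := h2
    exact ⟨x, hx.symm⟩
  · intro h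
    refine settled_of_int ((Pool.Agent.N874.WG.Q_monic b c).mul (Pool.Agent.N874.WG.Q_monic b (c + 2))) fun z hz => ?_
    rw [hL] at hz
    exact h z hz

end Pool.Agent.Helper12.WG
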