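import Pool.Agent.Helper12.WG.E

/-! The example `(X² - 7) (X² - 5)`: the weakly global points of level one are the square roots of six. -/

set_option autoImplicit false

open Polynomial

namespace Pool.Agent.Helper12.WG

open Pool.Agent.Results.MP_fd87b4_nt.LevelOneForTheLine (Level1 IntPts Settled)

theorem not_sq (n : ℤ) (m : ℕ) (h1 : (m : ℤ) ^ 2 < n) (h2 : n < ((m : ℤ) + 1) ^ 2) : ¬ IsSquare n := by
  rintro ⟨r, rfl⟩
  have h3 : r * r = (r.natAbs : ℤ) ^ 2 := by rw [Int.natAbs_sq, sq]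
  rw [h3] at h1 h2
  have h4 : m < r.natAbs := by
    by_contra hcon
    push Not at hcon
    have : (r.natAbs : ℤ) ≤ m := by exact_mod_cast hcon
    nlinarith [Int.natCast_nonneg r.natAbs]
  have h5 : r.natAbs < m + 1 := by
    by_contra hcon
    push Not at hcon
    have : (m : ℤ) + 1 ≤ r.natAbs := by exact_mod_cast hcon
    nlinarith [Int.natCast_nonneg m]
  omega

theorem odd_of_mod {p : ℕ} {r : ℕ} (h : p % 24 = r) (hr : r % 2 = 1) : Odd p := by
  rw [Nat.odd_iff]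
  omega

theorem no_root {p : ℕ} [Fact p.Prime] (h : p % 24 = 7) (z : ℤ_[p]) : z ^ 2 ≠ 6 := by
  intro hz
  have h1 : legendreSym p 6 = -1 := by
    rw [jacobiSym.legendreSym.to_jacobiSym, jacobiSym.mod_right 6 (odd_of_mod h rfl)]
    have : p % (4 * (6 : ℤ).natAbs) = 7 := h
    rw [this]
    norm_num
  rw [legendreSym.eq_neg_one_iff] at h1
  apply h1
  refine ⟨PadicInt.toZMod z, ?_⟩
  have := congrArg (PadicInt.toZMod (p := p)) hz
  rw [map_pow, map_ofNat] at this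
  rw [← sq, this]
  push_cast
  rfl

theorem root {p : ℕ} [Fact p.Prime] (h : p % 24 = 1) : ∃ z : ℤ_[p], z ^ 2 = 6 := by
  have hp : p.Prime := Fact.out
  have hp5 : 5 ≤ p := by
    have := hp.two_le
    omega
  have h60 : ((6 : ℤ) : ZMod p) ≠ 0 := by
    intro h0
    have h0' : ((6 : ℕ) : ZMod p) = 0 := by exact_mod_cast h0
    rw [ZMod.natCast_eq_zero_iff] at h0'
    have : p ≤ 6 := Nat.le_of_dvd (by norm_num) h0'
    omega
  have h1 : legendreSym p 6 = 1 := by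
    rw [jacobiSym.legendreSym.to_jacobiSym, jacobiSym.mod_right 6 (odd_of_mod h rfl)]
    have : p % (4 * (6 : ℤ).natAbs) = 1 := h
    rw [this]
    exact jacobiSym.one_right 6
  rw [legendreSym.eq_one_iff p h60] at h1
  obtain ⟨x, hx⟩ := h1
  have hx' : x * x = 6 := by rw [← hx]; push_cast; rfl
  have hxv : ((x.val : ℕ) : ZMod p) = x := ZMod.natCast_zmod_val x
  have unit_of : ∀ y : ℤ_[p], PadicInt.toZMod y ≠ 0 → ‖y‖ = 1 := by
    intro y hy
    rw [← PadicInt.isUnit_iff]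
    by_contra hcon
    apply hy
    rw [← RingHom.mem_ker, PadicInt.ker_toZMod, IsLocalRing.mem_maximalIdeal]
    exact hcon
  have small_of : ∀ y : ℤ_[p], PadicInt.toZMod y = 0 → ‖y‖ < 1 := by
    intro y hy
    rw [← RingHom.mem_ker, PadicInt.ker_toZMod, IsLocalRing.mem_maximalIdeal, mem_nonunits_iff,
      PadicInt.isUnit_iff] at hy
    exact lt_of_le_of_ne (PadicInt.norm_le_one _) hy
  obtain ⟨F, hF⟩ : ∃ F : ℤ_[p][X], F = X ^ 2 - C 6 := ⟨_, rfl⟩
  have e0 : ∀ y : ℤ_[p], F.aeval y = y ^ 2 - 6 := by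
    intro y
    rw [hF]
    simp
  have e1 : F.derivative.aeval ((x.val : ℕ) : ℤ_[p]) = 2 * ((x.val : ℕ) : ℤ_[p]) := by
    rw [hF]
    simp
    left
    norm_num
  have n1 : ‖F.derivative.aeval ((x.val : ℕ) : ℤ_[p])‖ = 1 := by
    rw [e1]
    apply unit_of
    rw [map_mul, map_natCast, map_ofNat, hxv]
    have h2 : (2 : ZMod p) ≠ 0 := by
      intro h0
      have h0' : ((2 : ℕ) : ZMod p) = 0 := by exact_mod_cast h0
      rw [ZMod.natCast_eq_zero_iff] at h0'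
      have : p ≤ 2 := Nat.le_of_dvd (by norm_num) h0'
      omega
    have h3 : x ≠ 0 := by
      rintro rfl
      rw [mul_zero] at hx'
      apply h60
      push_cast
      exact hx'.symm
    exact mul_ne_zero h2 h3
  have n2 : ‖F.aeval ((x.val : ℕ) : ℤ_[p])‖ < 1 := by
    rw [e0]
    apply small_of
    rw [map_sub, map_pow, map_natCast, map_ofNat, hxv, sq, hx', sub_self]
  obtain ⟨z, hz1, -⟩ := hensels_lemma (F := F) (a := ((x.val : ℕ) : ℤ_[p])) (by rw [n1]; simpa using n2)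
  refine ⟨z, ?_⟩
  rw [e0, sub_eq_zero] at hz1
  exact hz1

theorem not_int {p : ℕ} [Fact p.Prime] (x : ℤ) : ((x : ℤ) : ℤ_[p]) ^ 2 ≠ 6 := by
  intro h
  have h1 : x ^ 2 = 6 := by exact_mod_cast h
  exact not_sq 6 2 (by norm_num) (by norm_num) ⟨x, by rw [← h1, sq]⟩

/-- **The example.** -/
theorem example_main :
    (∀ (p : ℕ) [Fact p.Prime], p ≠ 2 →
      Level1 p ((X ^ 2 - C 7) * (X ^ 2 - C 5)) = {z : ℤ_[p] | z ^ 2 = 6} ∧
      (Settled p ((X ^ 2 - C 7) * (X ^ 2 - C 5)) ↔ ∀ z : ℤ_[p], z ^ 2 ≠ 6)) ∧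
    IntPts ((X ^ 2 - C 7) * (X ^ 2 - C 5)) = ∅ ∧
    (∀ N : ℕ, ∃ p : ℕ, N < p ∧ ∃ _ : Fact p.Prime, ¬ Settled p ((X ^ 2 - C 7) * (X ^ 2 - C 5))) ∧
    ∀ N : ℕ, ∃ p : ℕ, N < p ∧ ∃ _ : Fact p.Prime, Settled p ((X ^ 2 - C 7) * (X ^ 2 - C 5)) := by
  have e1 : (X ^ 2 - C 7 : ℤ[X]) = X ^ 2 + C 0 * X + C (-7) := by
    rw [C_neg, C_0]
    ring
  have e2 : (X ^ 2 - C 5 : ℤ[X]) = X ^ 2 + C 0 * X + C (-7 + 2) := by
    rw [show (-7 + 2 : ℤ) = -5 by norm_num, C_neg, C_0]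
    ring
  have key : ∀ (p : ℕ) [Fact p.Prime], p ≠ 2 →
      Level1 p ((X ^ 2 - C 7) * (X ^ 2 - C 5)) = {z : ℤ_[p] | z ^ 2 = 6} ∧
      (Settled p ((X ^ 2 - C 7) * (X ^ 2 - C 5)) ↔ ∀ z : ℤ_[p], z ^ 2 ≠ 6) := by
    intro p _ hp2
    obtain ⟨h1, h2⟩ := pair_main (p := p) hp2 (b := 0) (c := -7) (by norm_num)
      (not_sq _ 5 (by norm_num) (by norm_num)) (not_sq _ 4 (by norm_num) (by norm_num))
    rw [← e1, ← e2] at h1 h2
    have e3 : ∀ z : ℤ_[p], z ^ 2 + ((0 : ℤ) : ℤ_[p]) * z + ((-7 : ℤ) : ℤ_[p]) = -1 ↔ z ^ 2 = 6 := by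
      intro z
      push_cast
      constructor
      · intro h; linear_combination h
      · intro h; linear_combination h
    refine ⟨?_, ?_⟩
    · rw [h1]
      ext z
      exact e3 z
    · rw [h2]
      constructor
      · intro h z hz
        obtain ⟨x, hx⟩ := h z ((e3 z).2 hz)
        rw [hx] at hz
        exact not_int x hz
      · intro h z hz
        exact absurd ((e3 z).1 hz) (h z)
  have big : ∀ N : ℕ, ∀ r : ℕ, IsUnit ((r : ℕ) : ZMod 24) → r < 24 → ∃ p, N < p ∧ p.Prime ∧ p % 24 = r := by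
    intro N r hr hr24
    obtain ⟨p, h1, h2, h3⟩ := Nat.forall_exists_prime_gt_and_eq_mod (q := 24) hr N
    refine ⟨p, h1, h2, ?_⟩
    have h4 := (ZMod.natCast_eq_natCast_iff' p r 24).1 h3
    rw [h4]
    exact Nat.mod_eq_of_lt hr24
  refine ⟨key, ?_, fun N => ?_, fun N => ?_⟩
  · rw [Set.eq_empty_iff_forall_notMem]
    intro x hx
    have h1 : IsUnit (eval x ((X ^ 2 - C 7) * (X ^ 2 - C 5) : ℤ[X])) := hx
    rw [eval_mul] at h1
    have h2 : eval x (X ^ 2 - C 7 : ℤ[X]) = x ^ 2 - 7 := by simp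
    have h3 : eval x (X ^ 2 - C 5 : ℤ[X]) = x ^ 2 - 5 := by simp
    rw [h2, h3] at h1
    have h4 := Int.isUnit_iff.1 (isUnit_of_mul_isUnit_left h1)
    have h5 := Int.isUnit_iff.1 (isUnit_of_mul_isUnit_right h1)
    have h6 : x ^ 2 = 6 := by omega
    exact not_sq 6 2 (by norm_num) (by norm_num) ⟨x, by rw [← h6, sq]⟩
  · obtain ⟨p, h1, h2, h3⟩ := big N 1 (by decide) (by norm_num)
    have : Fact p.Prime := ⟨h2⟩
    refine ⟨p, h1, ⟨h2⟩, ?_⟩
    rw [(key p (by omega)).2]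
    push Not
    exact root h3
  · obtain ⟨p, h1, h2, h3⟩ := big N 7 (by decide) (by norm_num)
    have : Fact p.Prime := ⟨h2⟩
    refine ⟨p, h1, ⟨h2⟩, ?_⟩
    rw [(key p (by omega)).2]
    exact no_root h3

end Pool.Agent.Helper12.WG
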