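import Pool.Agent.Helper12.WG.B

/-! Weakly global points of level one for almost all pairs of components: counting the polynomials `h` for which the
curve `t ↦ (g (t), h (t))` passes through a torsion point at a `t` which is not an integer. -/

set_option autoImplicit false

open Polynomial

namespace Pool.Agent.Helper12.WG

open Pool.Agent.N874.WG
open Pool.Agent.Results.MP_fd87b4_nt.LevelOneForTheLine (Level1 IntPts Settled Good Ru)

/-- a number whose totient is at most `D` divides `(2 D)!` -/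
theorem dvd_factorial_of_totient_le {m D : ℕ} (hm : 0 < m) (h : m.totient ≤ D) : m ∣ (2 * D).factorial := by
  rw [Nat.dvd_iff_prime_pow_dvd_dvd]
  intro p k hp hk
  rcases Nat.eq_zero_or_pos k with rfl | hk0
  · simp
  have h1 : (p ^ k).totient ≤ D :=
    (Nat.le_of_dvd (Nat.totient_pos.2 hm) (Nat.totient_dvd_of_dvd hk)).trans h
  rw [Nat.totient_prime_pow hp hk0] at h1
  have h2 : p ^ k = p ^ (k - 1) * p := by
    rw [← pow_succ]
    congr 1
    omega
  have h3 : p ≤ 2 * (p - 1) := by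
    have := hp.two_le
    omega
  have h4 : p ^ k ≤ 2 * D := by
    calc p ^ k = p ^ (k - 1) * p := h2
      _ ≤ p ^ (k - 1) * (2 * (p - 1)) := Nat.mul_le_mul_left _ h3
      _ = 2 * (p ^ (k - 1) * (p - 1)) := by ring
      _ ≤ 2 * D := Nat.mul_le_mul_left _ h1
  exact Nat.dvd_factorial (pow_pos hp.pos k) h4

/-- if all points of the curve `(g (t), h (t))` with coordinates of order dividing `(4 a b)!` belong to integers `t`,
then level one is exact -/
theorem settled_of_torsion {f g h : ℤ[X]} (hf : f.Monic) (hg : g.Monic) (hh : h.Monic) (hd : 0 < g.natDegree)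
    (he : 0 < h.natDegree) (hco : IsCoprime (g.map (Int.castRingHom ℚ)) (h.map (Int.castRingHom ℚ)))
    (hgf : g ∣ f) (hhf : h ∣ f) {p : ℕ} [Fact p.Prime]
    (hC : ∀ t : ℂ, aeval t g ^ (4 * (g.natDegree * h.natDegree)).factorial = 1 →
      aeval t h ^ (4 * (g.natDegree * h.natDegree)).factorial = 1 → ∃ x : ℤ, t = x) :
    Settled p f := by
  refine settled_of_int hf fun z hz => ?_
  have hfd : 0 < f.natDegree := lt_of_lt_of_le hd (natDegree_le_of_dvd hgf hf.ne_zero)
  obtain ⟨t, ht, -⟩ := level_transfer hf hfd hz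
  have key : ∀ k : ℤ[X], k.Monic → k ∣ f → aeval t k ^ (4 * (g.natDegree * h.natDegree)).factorial = 1 := by
    intro k hk hkf
    obtain ⟨m, hm, h1, h2⟩ := level_order (Elim_ne_zero hg hh hd he hco) hz
      (level_root hg hh hd hgf hhf hz) hk hkf
    have h3 : m ∣ (4 * (g.natDegree * h.natDegree)).factorial := by
      have := dvd_factorial_of_totient_le hm (h1.trans (Elim_natDegree g h))
      rwa [show 2 * (2 * (g.natDegree * h.natDegree)) = 4 * (g.natDegree * h.natDegree) by ring] at this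
    have h4 : aeval z k ^ (4 * (g.natDegree * h.natDegree)).factorial = 1 := by
      obtain ⟨c, hc⟩ := h3
      rw [hc, pow_mul, h2.pow_eq_one, one_pow]
    have := (ht (k ^ (4 * (g.natDegree * h.natDegree)).factorial - 1)).1
      (by rw [map_sub, map_pow, h4, map_one, sub_self])
    rwa [map_sub, map_pow, map_one, sub_eq_zero] at this
  obtain ⟨x, hx⟩ := hC t (key g hg hgf) (key h hh hhf)
  refine ⟨x, ?_⟩
  have h2 := (ht (X - C x)).2 (by rw [map_sub, aeval_X, aeval_C, hx]; simp)
  rw [map_sub, aeval_X, aeval_C, sub_eq_zero] at h2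
  rw [h2]
  simp

/-- an algebraic integer on a rational line is an integer -/
theorem int_of_linear {t : ℂ} (ht : IsIntegral ℤ t) {c d : ℤ} (hd : d ≠ 0) (h : (c : ℂ) + d * t = 0) :
    ∃ x : ℤ, t = x := by
  have h1 : t = ((-(c : ℚ) / d : ℚ) : ℂ) := by
    have hd' : (d : ℂ) ≠ 0 := by exact_mod_cast hd
    push_cast
    field_simp
    linear_combination h
  have h2 : IsIntegral ℤ (-(c : ℚ) / d : ℚ) := by
    rw [h1] at ht
    have h3 : ((-(c : ℚ) / d : ℚ) : ℂ) = algebraMap ℚ ℂ (-(c : ℚ) / d) := rfl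
    rw [h3] at ht
    exact (isIntegral_algebraMap_iff (algebraMap ℚ ℂ).injective).1 ht
  obtain ⟨x, hx⟩ := IsIntegrallyClosed.isIntegral_iff.1 h2
  refine ⟨x, ?_⟩
  rw [h1, ← hx]
  simp

/-- the monic polynomials of degree `b` with coefficients at most `H` and with a given value at `t` -/
def fibre (b H : ℕ) (t ξ : ℂ) : Set ℤ[X] :=
  {h | h.Monic ∧ h.natDegree = b ∧ (∀ i < b, |h.coeff i| ≤ H) ∧ aeval t h = ξ}

theorem fibre_count {b H : ℕ} {t ξ : ℂ} (hti : IsIntegral ℤ t) (ht : ¬ ∃ x : ℤ, t = x) :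
    (fibre b H t ξ).Finite ∧ (fibre b H t ξ).ncard ≤ (2 * H + 1) ^ (b - 2) := by
  classical
  let Φ : ℤ[X] → (Fin (b - 2) → ℤ) := fun h i => h.coeff (i + 2)
  let B : Finset (Fin (b - 2) → ℤ) := Fintype.piFinset fun _ => Finset.Icc (-(H : ℤ)) H
  have hB : B.card = (2 * H + 1) ^ (b - 2) := by
    simp only [B, Fintype.card_piFinset, Finset.prod_const, Finset.card_univ, Fintype.card_fin, Int.card_Icc]
    congr 1
    omega
  have hmap : ∀ h ∈ fibre b H t ξ, Φ h ∈ (B : Set (Fin (b - 2) → ℤ)) := by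
    rintro h ⟨-, -, h3, -⟩
    rw [Finset.mem_coe, Fintype.mem_piFinset]
    intro i
    have := h3 (i + 2) (by have := i.2; omega)
    rw [abs_le] at this
    exact Finset.mem_Icc.2 this
  have hinj : Set.InjOn Φ (fibre b H t ξ) := by
    rintro h ⟨h1, h2, h3, h4⟩ h' ⟨h1', h2', h3', h4'⟩ he
    have hc : ∀ j, 2 ≤ j → h.coeff j = h'.coeff j := by
      intro j hj
      rcases lt_trichotomy j b with hjb | rfl | hjb
      · have := congrFun he ⟨j - 2, by omega⟩
        simp only [Φ] at this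
        rwa [show j - 2 + 2 = j by omega] at this
      · have e1 : h.coeff j = 1 := by
          have := h1.coeff_natDegree
          rwa [h2] at this
        have e2 : h'.coeff j = 1 := by
          have := h1'.coeff_natDegree
          rwa [h2'] at this
        rw [e1, e2]
      · rw [coeff_eq_zero_of_natDegree_lt (by omega), coeff_eq_zero_of_natDegree_lt (by omega)]
    have hdiff : h - h' = C ((h - h').coeff 1) * X + C ((h - h').coeff 0) := by
      refine eq_X_add_C_of_natDegree_le_one ?_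
      rw [natDegree_le_iff_coeff_eq_zero]
      intro j hj
      rw [coeff_sub, hc j (by omega), sub_self]
    have hval : (((h - h').coeff 0 : ℤ) : ℂ) + ((h - h').coeff 1 : ℤ) * t = 0 := by
      have e : aeval t (h - h') = 0 := by rw [map_sub, h4, h4', sub_self]
      rw [hdiff, map_add, map_mul, aeval_X, aeval_C, aeval_C] at e
      simp only [algebraMap_int_eq, eq_intCast] at e
      rw [add_comm]
      exact e
    have h5 : (h - h').coeff 1 = 0 := by
      by_contra hne
      exact ht (int_of_linear hti hne hval)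
    have h6 : (h - h').coeff 0 = 0 := by
      rw [h5, Int.cast_zero, zero_mul, add_zero] at hval
      exact_mod_cast hval
    have h7 : h - h' = 0 := by rw [hdiff, h5, h6]; simp
    exact sub_eq_zero.1 h7
  have hfin : (fibre b H t ξ).Finite :=
    Set.Finite.of_finite_image ((Finset.finite_toSet B).subset (Set.image_subset_iff.2 hmap)) hinj
  refine ⟨hfin, ?_⟩
  rw [← hB, ← Set.ncard_coe_finset B]
  exact Set.ncard_le_ncard_of_injOn Φ hmap hinj (Finset.finite_toSet B)

/-- the number of the `h` for which the curve `(g (t), h (t))` has a torsion point of order dividing `L` at a `t` which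
is not an integer -/
theorem torsion_count {g : ℤ[X]} (hg : g.Monic) (hd : 0 < g.natDegree) (b H L : ℕ) (hL : 0 < L) :
    {h : ℤ[X] | h.Monic ∧ h.natDegree = b ∧ (∀ i < b, |h.coeff i| ≤ H) ∧
      ∃ t : ℂ, aeval t g ^ L = 1 ∧ aeval t h ^ L = 1 ∧ ¬ ∃ x : ℤ, t = x}.Finite ∧
    {h : ℤ[X] | h.Monic ∧ h.natDegree = b ∧ (∀ i < b, |h.coeff i| ≤ H) ∧
      ∃ t : ℂ, aeval t g ^ L = 1 ∧ aeval t h ^ L = 1 ∧ ¬ ∃ x : ℤ, t = x}.ncard ≤
      g.natDegree * L ^ 2 * (2 * H + 1) ^ (b - 2) := by
  classical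
  have hgL : (g ^ L - 1).Monic := by
    refine (hg.pow L).sub_of_left ?_
    rw [degree_one, ← natDegree_pos_iff_degree_pos, natDegree_pow]
    exact Nat.mul_pos hL hd
  have hdeg : (g ^ L - 1).natDegree ≤ g.natDegree * L := by
    refine (natDegree_sub_le _ _).trans ?_
    rw [natDegree_one, hg.natDegree_pow, max_eq_left (Nat.zero_le _), mul_comm]
  let P : ℂ[X] := (g ^ L - 1).map (algebraMap ℤ ℂ)
  have hP : P ≠ 0 := (Polynomial.map_ne_zero_iff (algebraMap ℤ ℂ).injective_int).2 hgL.ne_zero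
  let T : Finset ℂ := P.roots.toFinset.filter fun t => ¬ ∃ x : ℤ, t = x
  let U : Finset ℂ := (nthRoots L (1 : ℂ)).toFinset
  have hT : T.card ≤ g.natDegree * L :=
    (Finset.card_filter_le _ _).trans ((Multiset.toFinset_card_le _).trans
      ((card_roots' _).trans (natDegree_map_le.trans hdeg)))
  have hU : U.card ≤ L := (Multiset.toFinset_card_le _).trans (card_nthRoots _ _)
  have hTmem : ∀ t ∈ T, IsIntegral ℤ t ∧ ¬ ∃ x : ℤ, t = x := by
    intro t ht
    rw [Finset.mem_filter, Multiset.mem_toFinset, mem_roots hP, IsRoot.def, eval_map_algebraMap] at ht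
    exact ⟨⟨g ^ L - 1, hgL, by rw [← aeval_def]; exact ht.1⟩, ht.2⟩
  set S : Set ℤ[X] := {h : ℤ[X] | h.Monic ∧ h.natDegree = b ∧ (∀ i < b, |h.coeff i| ≤ H) ∧
      ∃ t : ℂ, aeval t g ^ L = 1 ∧ aeval t h ^ L = 1 ∧ ¬ ∃ x : ℤ, t = x} with hS
  have hsub : S ⊆ ⋃ q ∈ T ×ˢ U, fibre b H q.1 q.2 := by
    rintro h ⟨h1, h2, h3, t, h4, h5, h6⟩
    simp only [Set.mem_iUnion]
    refine ⟨(t, aeval t h), ?_, h1, h2, h3, rfl⟩
    rw [Finset.mem_product]
    refine ⟨?_, ?_⟩
    · rw [Finset.mem_filter, Multiset.mem_toFinset, mem_roots hP, IsRoot.def, eval_map_algebraMap]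
      refine ⟨?_, h6⟩
      rw [map_sub, map_pow, h4, map_one, sub_self]
    · rw [Multiset.mem_toFinset, mem_nthRoots hL]
      exact h5
  have hfinU : (⋃ q ∈ T ×ˢ U, fibre b H q.1 q.2).Finite := by
    refine Set.Finite.biUnion (Finset.finite_toSet (T ×ˢ U)) fun q hq => ?_
    have := hTmem q.1 (Finset.mem_product.1 hq).1
    exact (fibre_count this.1 this.2).1
  refine ⟨hfinU.subset hsub, (Set.ncard_le_ncard hsub hfinU).trans ?_⟩
  calc (⋃ q ∈ T ×ˢ U, fibre b H q.1 q.2).ncard ≤ ∑ q ∈ T ×ˢ U, (fibre b H q.1 q.2).ncard := by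
        exact Finset.set_ncard_biUnion_le _ _
    _ ≤ ∑ _q ∈ T ×ˢ U, (2 * H + 1) ^ (b - 2) := by
        refine Finset.sum_le_sum fun q hq => ?_
        have := hTmem q.1 (Finset.mem_product.1 hq).1
        exact (fibre_count this.1 this.2).2
    _ = T.card * U.card * (2 * H + 1) ^ (b - 2) := by
        rw [Finset.sum_const, Finset.card_product, smul_eq_mul]
    _ ≤ g.natDegree * L * L * (2 * H + 1) ^ (b - 2) := by
        gcongr
    _ = g.natDegree * L ^ 2 * (2 * H + 1) ^ (b - 2) := by ring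

end Pool.Agent.Helper12.WG
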